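import Pool.Agent.N971.RQ.Rel
import Pool.Agent.N970.RQ.Sgd

/-!
# RQ: the values of the quadratic character of a negative divisor
-/

set_option autoImplicit false

namespace Pool.Agent.N971.RQ

open Finset
open Pool.Agent.N969.RQ (Fd Un ud sgd ps J o3 o5 o7 one)
open Pool.Agent.N969.P15 (c2)

noncomputable section

variable {D d : ℕ}

theorem chps_mul (D d : ℕ) (u v : ℤ) : chps D d (u * v) = chps D d u * chps D d v := by
  unfold chps
  have e : ∀ p ∈ d.primeFactors.erase 2, jacobiSym (u * v) p = jacobiSym u p * jacobiSym v p :=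
    fun p _ => jacobiSym.mul_left u v p
  rw [Finset.prod_congr rfl e, Finset.prod_mul_distrib]
  split_ifs
  · rw [Pool.Agent.N975.ChE.c2_mul]
    ring
  · ring

theorem prod_jac {m : ℕ} (hm : Squarefree m) (u : ℤ) :
    ∏ p ∈ m.primeFactors, jacobiSym u p = jacobiSym u m := by
  rw [← Pool.Agent.Y574.Z7.jac_prod u m.primeFactors fun q hq =>
    (Nat.prime_of_mem_primeFactors hq).ne_zero, Nat.prod_primeFactors_of_squarefree hm]

theorem pf_erase {m : ℕ} (hm : ¬ 2 ∣ m) {k : ℕ} (hk : k ≠ 0) :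
    (2 ^ k * m).primeFactors.erase 2 = m.primeFactors := by
  have hm0 : m ≠ 0 := by rintro rfl; exact hm (dvd_zero 2)
  rw [Nat.primeFactors_mul (by positivity) hm0, Nat.primeFactors_prime_pow hk Nat.prime_two]
  ext p
  simp only [Finset.mem_erase, Finset.mem_union, Finset.mem_singleton]
  constructor
  · rintro ⟨h1, h2 | h2⟩
    · exact absurd h2 h1
    · exact h2
  · intro h
    refine ⟨?_, Or.inr h⟩
    rintro rfl
    exact hm (Nat.dvd_of_mem_primeFactors h)

theorem z32 : ∀ d n : ZMod 32, n.val % 4 = 3 →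
    (((d * n).val % 16 = 12 → d.val % 16 = 4) ∧ ((d * n).val = 8 → d.val = 24) ∧
      ((d * n).val = 24 → d.val = 8)) := by
  decide

/-- the even divisors of negative sign -/
theorem even_cases (hD : Fd D) (hU : Un D d) (hs : sgd D d = -1) (h2 : 2 ∣ d) :
    (D % 16 = 12 ∧ ∃ m : ℕ, d = 2 ^ 2 * m ∧ Squarefree m ∧ m % 4 = 1) ∨
    (D % 32 = 8 ∧ ∃ m : ℕ, d = 2 ^ 3 * m ∧ Squarefree m ∧ m % 4 = 3) ∨
    (D % 32 = 24 ∧ ∃ m : ℕ, d = 2 ^ 3 * m ∧ Squarefree m ∧ m % 4 = 1) := by
  obtain ⟨hU', he⟩ := Pool.Agent.N970.RQ.Un_co hD hU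
  have hs' : sgd D (D / d) = -1 := by
    have := Pool.Agent.N970.RQ.sgd_co hD hU
    rw [hs] at this
    linarith
  have h2' : ¬ 2 ∣ D / d := by
    intro h
    have := Nat.dvd_gcd h2 h
    rw [hU.2] at this
    omega
  have h4 := Pool.Agent.N970.RQ.mod_of_sgd hD hU'.1 h2' hs'
  have hmul : d * (D / d) = D := Nat.mul_div_cancel' hU.1
  have key := z32 (d : ZMod 32) ((D / d : ℕ) : ZMod 32)
  rw [← Nat.cast_mul, hmul, ZMod.val_natCast, ZMod.val_natCast, ZMod.val_natCast] at key
  have key2 := key (by omega)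
  obtain ⟨k1, k2, k3⟩ := key2
  obtain ⟨-, h | ⟨M, hM, hsq, hm⟩⟩ := hD
  · have : 2 ∣ D := h2.trans hU.1
    omega
  have sqm : ∀ m : ℕ, m ∣ M → Squarefree m := fun m h => hsq.squarefree_of_dvd h
  have hco : ∀ m : ℕ, ¬ 2 ∣ m → m ∣ D → m ∣ M := by
    intro m hm2 hmD
    have h5 : Nat.Coprime m 4 := by
      have : Nat.Coprime 2 m := (Nat.Prime.coprime_iff_not_dvd Nat.prime_two).2 hm2
      exact (this.pow_left 2).symm
    rw [hM] at hmD
    exact h5.dvd_of_dvd_mul_left hmD
  rcases hm with hm | hm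
  · have h8 : D % 32 = 8 ∨ D % 32 = 24 := by omega
    rcases h8 with h8 | h8
    · have h9 := k2 h8
      refine Or.inr (Or.inl ⟨h8, d / 8, by norm_num; omega, ?_, by omega⟩)
      refine sqm _ (hco _ (by omega) ?_)
      exact (Dvd.intro_left 8 (by omega)).trans hU.1
    · have h9 := k3 h8
      refine Or.inr (Or.inr ⟨h8, d / 8, by norm_num; omega, ?_, by omega⟩)
      refine sqm _ (hco _ (by omega) ?_)
      exact (Dvd.intro_left 8 (by omega)).trans hU.1
  · have h8 : D % 16 = 12 := by omega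
    have h9 := k1 (by omega)
    refine Or.inl ⟨h8, d / 4, by norm_num; omega, ?_, by omega⟩
    refine sqm _ (hco _ (by omega) ?_)
    exact (Dvd.intro_left 4 (by omega)).trans hU.1

theorem chps_odd (hD : Fd D) (hU : Un D d) (h2 : ¬ 2 ∣ d) (u : ℤ) :
    chps D d u = jacobiSym u d := by
  have hsq := Pool.Agent.N970.RQ.sq_of_odd hD hU.1 h2
  have he : d.primeFactors.erase 2 = d.primeFactors :=
    Finset.erase_eq_of_notMem fun h3 => h2 (Nat.dvd_of_mem_primeFactors h3)
  unfold chps
  rw [if_neg h2, one_mul, he, prod_jac hsq]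

theorem chps_even {m k : ℕ} (hk : k ≠ 0) (hm : Squarefree m) (hm2 : ¬ 2 ∣ m) (hd : d = 2 ^ k * m)
    (u : ℤ) : chps D d u = c2 (3 * D) u * jacobiSym u m := by
  have h2 : 2 ∣ d := by
    rw [hd]
    exact (dvd_pow_self 2 hk).mul_right m
  unfold chps
  rw [if_pos h2, hd, pf_erase hm2 hk, prod_jac hm]

/-- the value at `3` -/
theorem chps_three (hD : Fd D) (hU : Un D d) (hs : sgd D d = -1) :
    chps D d 3 = jacobiSym (-(d : ℤ)) 3 := by
  by_cases h2 : 2 ∣ d
  · rcases even_cases hD hU hs h2 with ⟨h3, m, hd, hm, h4⟩ | ⟨h3, m, hd, hm, h4⟩ | ⟨h3, m, hd, hm, h4⟩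
    · rw [chps_even (by norm_num) hm (by omega) hd]
      have e1 : c2 (3 * D) 3 = -1 := by
        unfold c2
        rw [if_neg (by norm_num), if_pos (by omega)]
        norm_num
      have e2 : jacobiSym 3 m = jacobiSym m 3 := by
        have := jacobiSym.quadratic_reciprocity_one_mod_four' (a := 3) (b := m) (by decide) h4
        exact_mod_cast this
      have e3 : (-(d : ℤ)) = (-4) * m := by rw [hd]; push_cast; ring
      have e4 : jacobiSym (-4) 3 = -1 := by norm_num
      rw [e1, e2, e3, jacobiSym.mul_left, e4]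
    · rw [chps_even (by norm_num) hm (by omega) hd]
      have e1 : c2 (3 * D) 3 = -1 := by
        unfold c2
        rw [if_neg (by norm_num), if_neg (by omega), if_neg (by omega)]
        norm_num
      have e2 : jacobiSym 3 m = - jacobiSym m 3 := by
        have := jacobiSym.quadratic_reciprocity_three_mod_four (a := 3) (b := m) (by norm_num) h4
        exact_mod_cast this
      have e3 : (-(d : ℤ)) = (-8) * m := by rw [hd]; push_cast; ring
      have e4 : jacobiSym (-8) 3 = 1 := by norm_num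
      rw [e1, e2, e3, jacobiSym.mul_left, e4]
      ring
    · rw [chps_even (by norm_num) hm (by omega) hd]
      have e1 : c2 (3 * D) 3 = 1 := by
        unfold c2
        rw [if_neg (by norm_num), if_neg (by omega), if_pos (by omega)]
        norm_num
      have e2 : jacobiSym 3 m = jacobiSym m 3 := by
        have := jacobiSym.quadratic_reciprocity_one_mod_four' (a := 3) (b := m) (by decide) h4
        exact_mod_cast this
      have e3 : (-(d : ℤ)) = (-8) * m := by rw [hd]; push_cast; ring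
      have e4 : jacobiSym (-8) 3 = 1 := by norm_num
      rw [e1, e2, e3, jacobiSym.mul_left, e4]
  · rw [chps_odd hD hU h2]
    have h4 := Pool.Agent.N970.RQ.mod_of_sgd hD hU.1 h2 hs
    have e2 : jacobiSym 3 d = - jacobiSym d 3 := by
      have := jacobiSym.quadratic_reciprocity_three_mod_four (a := 3) (b := d) (by norm_num) h4
      exact_mod_cast this
    have e3 : (-(d : ℤ)) = (-1) * d := by ring
    have e4 : jacobiSym (-1) 3 = -1 := by norm_num
    rw [e2, e3, jacobiSym.mul_left, e4]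
    ring

/-- the value at `5` -/
theorem chps_five (hD : Fd D) (hU : Un D d) (hs : sgd D d = -1) :
    chps D d 5 = jacobiSym d 5 := by
  by_cases h2 : 2 ∣ d
  · rcases even_cases hD hU hs h2 with ⟨h3, m, hd, hm, h4⟩ | ⟨h3, m, hd, hm, h4⟩ | ⟨h3, m, hd, hm, h4⟩
    · rw [chps_even (by norm_num) hm (by omega) hd]
      have e1 : c2 (3 * D) 5 = 1 := by
        unfold c2
        rw [if_neg (by norm_num), if_pos (by omega)]
        norm_num
      have e2 : jacobiSym 5 m = jacobiSym m 5 := by
        have := jacobiSym.quadratic_reciprocity_one_mod_four (a := 5) (b := m) (by norm_num)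
          (by rw [Nat.odd_iff]; omega)
        exact_mod_cast this
      have e3 : (d : ℤ) = 4 * m := by rw [hd]; push_cast; ring
      have e4 : jacobiSym 4 5 = 1 := by norm_num
      rw [e1, e2, e3, jacobiSym.mul_left, e4]
    · rw [chps_even (by norm_num) hm (by omega) hd]
      have e1 : c2 (3 * D) 5 = -1 := by
        unfold c2
        rw [if_neg (by norm_num), if_neg (by omega), if_neg (by omega)]
        norm_num
      have e2 : jacobiSym 5 m = jacobiSym m 5 := by
        have := jacobiSym.quadratic_reciprocity_one_mod_four (a := 5) (b := m) (by norm_num)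
          (by rw [Nat.odd_iff]; omega)
        exact_mod_cast this
      have e3 : (d : ℤ) = 8 * m := by rw [hd]; push_cast; ring
      have e4 : jacobiSym 8 5 = -1 := by norm_num
      rw [e1, e2, e3, jacobiSym.mul_left, e4]
    · rw [chps_even (by norm_num) hm (by omega) hd]
      have e1 : c2 (3 * D) 5 = -1 := by
        unfold c2
        rw [if_neg (by norm_num), if_neg (by omega), if_pos (by omega)]
        norm_num
      have e2 : jacobiSym 5 m = jacobiSym m 5 := by
        have := jacobiSym.quadratic_reciprocity_one_mod_four (a := 5) (b := m) (by norm_num)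
          (by rw [Nat.odd_iff]; omega)
        exact_mod_cast this
      have e3 : (d : ℤ) = 8 * m := by rw [hd]; push_cast; ring
      have e4 : jacobiSym 8 5 = -1 := by norm_num
      rw [e1, e2, e3, jacobiSym.mul_left, e4]
  · rw [chps_odd hD hU h2]
    have e2 : jacobiSym 5 d = jacobiSym d 5 := by
      have := jacobiSym.quadratic_reciprocity_one_mod_four (a := 5) (b := d) (by norm_num)
        (by rw [Nat.odd_iff]; omega)
      exact_mod_cast this
    exact e2

theorem js3_one {n : ℕ} (h : n % 3 = 1) : jacobiSym (-(n : ℤ)) 3 = -1 := by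
  rw [jacobiSym.mod_left]
  have h1 : (-(n : ℤ)) % ((3 : ℕ) : ℤ) = 2 := by omega
  rw [h1]; norm_num

theorem js3_two {n : ℕ} (h : n % 3 = 2) : jacobiSym (-(n : ℤ)) 3 = 1 := by
  rw [jacobiSym.mod_left]
  have h1 : (-(n : ℤ)) % ((3 : ℕ) : ℤ) = 1 := by omega
  rw [h1]; norm_num

theorem js5_neg (n : ℕ) : jacobiSym (-(n : ℤ)) 5 = jacobiSym n 5 := by
  have e3 : (-(n : ℤ)) = (-1) * n := by ring
  have e4 : jacobiSym (-1) 5 = 1 := by norm_num
  rw [e3, jacobiSym.mul_left, e4, one_mul]

/-- no vectors of norm `2` modulo `3` -/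
theorem rr21_zero {n : ℕ} (h : n % 3 = 2) : Pool.Agent.N877.P21.rr n = 0 := by
  unfold Pool.Agent.N877.P21.rr Pool.Agent.N877.P21.vec
  rw [Nat.cast_eq_zero, Finset.card_eq_zero, Finset.filter_eq_empty_iff]
  intro v _ hv
  have h1 : (n : ℤ) = 3 * (v 0 ^ 2 + v 2 ^ 2) + (2 * v 1 + v 2) ^ 2 := by
    rw [← hv]
    unfold Pool.Agent.N877.P21.ip
    ring
  have h2 : (n : ℤ) % 3 = 2 := by omega
  have h3 : (2 * v 1 + v 2) ^ 2 % 3 = 2 := by omega
  have h4 : (2 * v 1 + v 2) % 3 = 0 ∨ (2 * v 1 + v 2) % 3 = 1 ∨ (2 * v 1 + v 2) % 3 = 2 := by omega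
  rw [pow_two, Int.mul_emod] at h3
  rcases h4 with h4 | h4 | h4 <;> rw [h4] at h3 <;> norm_num at h3

end

end Pool.Agent.N971.RQ
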