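import Pool.Agent.N971.RQ.Rel15

/-!
# RQ: the relations at level `15`, assembled
-/

set_option autoImplicit false

namespace Pool.Agent.N971.RQ

open Finset
open Pool.Agent.N969.RQ (Fd Un ud sgd ps J o3 o5 o7 one)
open Pool.Agent.N975.RQ (Gc Wt Par U X kw wt_kw X_kw par_kw U_fin X_inf X_smul X_neg X_mod X_add_mul)
open Pool.Agent.N975.Sym (ev act ev_act ev10)

noncomputable section

variable {D d : ℕ}

/-- the weights are periodic -/
theorem per_one (N : ℤ) : ∀ b b' : ℤ, 2 * N ∣ b' - b → one b' = one b := fun _ _ _ => rfl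

theorem per_w35 : ∀ b b' : ℤ, 2 * (15 : ℤ) ∣ b' - b → w35 b' = w35 b := by
  intro b b' h
  unfold w35
  rw [o3_eq, o3_eq, o5_eq, o5_eq]
  have h3 : ((b' : ℤ) : ZMod 3) = (b : ZMod 3) := by
    rw [ZMod.intCast_eq_intCast_iff_dvd_sub]
    obtain ⟨t, ht⟩ := h
    exact ⟨-(10 * t), by push_cast; linarith⟩
  have h5 : ((b' : ℤ) : ZMod 5) = (b : ZMod 5) := by
    rw [ZMod.intCast_eq_intCast_iff_dvd_sub]
    obtain ⟨t, ht⟩ := h
    exact ⟨-(6 * t), by push_cast; linarith⟩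
  rw [h3, h5]

theorem even_w35 (b : ℤ) : w35 (-b) = w35 b := by
  unfold w35
  rw [o3_eq, o3_eq, o5_eq, o5_eq]
  push_cast
  have h3 : ∀ x : ZMod 3, f3 (-x) = - f3 x := by decide
  have h5 : ∀ x : ZMod 5, f5 (-x) = - f5 x := by decide
  rw [h3, h5]
  ring

/-- the orientation at `3` changes, the orientation at `5` does not -/
theorem w35_al (b b' : ℤ) (h1 : (3 : ℤ) ∣ b' + b) (h2 : (5 : ℤ) ∣ b' - b) :
    w35 b' = -1 * w35 b := by
  unfold w35
  rw [o3_eq, o3_eq, o5_eq, o5_eq]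
  have h3 : ((b' : ℤ) : ZMod 3) = -(b : ZMod 3) := by
    have := (dz3 _).1 h1
    push_cast at this
    linear_combination this
  have h5 : ((b' : ℤ) : ZMod 5) = (b : ZMod 5) := by
    have := (dz5 _).1 h2
    push_cast at this
    linear_combination this
  have h3' : ∀ x : ZMod 3, f3 (-x) = - f3 x := by decide
  rw [h3, h5, h3']
  ring

/-- the sum over the residues modulo `3` -/
theorem sum3 (hD : Fd D) (hd : d ∣ D) (hs : sgd D d = -1) {ρ : ℤ → ℤ}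
    (hρ : ∀ b b' : ℤ, 2 * (15 : ℤ) ∣ b' - b → ρ b' = ρ b) :
    ∑ j ∈ range 3, X (kw 15 D ρ (ps D d)) j (3 : ℕ) =
      X (kw 15 D ρ (ps D d)) 0 1 + 2 * X (kw 15 D ρ (ps D d)) 1 3 := by
  have H : Wt 15 D (kw 15 D ρ (ps D d)) := wt_kw (nsq hD) hρ (gc_ps hD hd)
  rw [Finset.sum_range_succ, Finset.sum_range_succ, Finset.sum_range_succ, Finset.sum_range_zero]
  push_cast
  have e0 : X (kw 15 D ρ (ps D d)) 0 3 = X (kw 15 D ρ (ps D d)) 0 1 := by
    have := X_smul (k := kw 15 D ρ (ps D d)) (g := 3) (by norm_num) 0 1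
    norm_num at this
    exact this
  have e2 : X (kw 15 D ρ (ps D d)) 2 3 = X (kw 15 D ρ (ps D d)) 1 3 := by
    rw [X_mod H (x := 2) (y := -1) (by norm_num) (by norm_num), X_even hD hd hs]
  rw [e0, e2]
  ring

/-- the sum over the residues modulo `5` -/
theorem sum5 (hD : Fd D) (hd : d ∣ D) (hs : sgd D d = -1) {ρ : ℤ → ℤ}
    (hρ : ∀ b b' : ℤ, 2 * (15 : ℤ) ∣ b' - b → ρ b' = ρ b) :
    ∑ j ∈ range 5, X (kw 15 D ρ (ps D d)) j (5 : ℕ) =
      X (kw 15 D ρ (ps D d)) 0 1 + 2 * X (kw 15 D ρ (ps D d)) 1 5 +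
        2 * X (kw 15 D ρ (ps D d)) 2 5 := by
  have H : Wt 15 D (kw 15 D ρ (ps D d)) := wt_kw (nsq hD) hρ (gc_ps hD hd)
  rw [Finset.sum_range_succ, Finset.sum_range_succ, Finset.sum_range_succ, Finset.sum_range_succ,
    Finset.sum_range_succ, Finset.sum_range_zero]
  push_cast
  have e0 : X (kw 15 D ρ (ps D d)) 0 5 = X (kw 15 D ρ (ps D d)) 0 1 := by
    have := X_smul (k := kw 15 D ρ (ps D d)) (g := 5) (by norm_num) 0 1
    norm_num at this
    exact this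
  have e3 : X (kw 15 D ρ (ps D d)) 3 5 = X (kw 15 D ρ (ps D d)) 2 5 := by
    rw [X_mod H (x := 3) (y := -2) (by norm_num) (by norm_num), X_even hD hd hs]
  have e4 : X (kw 15 D ρ (ps D d)) 4 5 = X (kw 15 D ρ (ps D d)) 1 5 := by
    rw [X_mod H (x := 4) (y := -1) (by norm_num) (by norm_num), X_even hD hd hs]
  rw [e0, e3, e4]
  ring

/-- `U_3`, trivial orientation, `3` split -/
theorem U3_one (hD : Fd D) (hd : d ∣ D) (hs : sgd D d = -1) (h3d : ¬ 3 ∣ d) (h3 : D % 3 = 1) :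
    2 * J 15 one D d 1 3 + J 15 one D d 0 1 =
      chps D d 3 * (2 * J 5 one D d 0 1 - J 15 one D d 0 1) := by
  have h1 := sum3 hD hd hs (per_one 15)
  have h2 := U_kw (N := 5) (ρ := one) hD hd Nat.prime_three h3d
  have e15 : ((3 : ℕ) : ℤ) * 5 = 15 := by norm_num
  rw [e15, h1] at h2
  have h4 : X (fun P => if P.2.1 ^ 2 - 4 * P.1 * P.2.2 = (D : ℤ) ∧ (5 : ℤ) ∣ P.1 then
      R one 3 P * ps D d P else 0) 0 1 =
      2 * X (kw 5 D one (ps D d)) 0 1 + (-1) * X (kw 15 D one (ps D d)) 0 1 := by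
    rw [← X_mul, ← X_mul, ← X_add' (nsq hD) ?_ ?_ (Or.inr one_ne_zero)]
    · congr 1
      funext P
      unfold kw
      by_cases h5 : P.2.1 ^ 2 - 4 * P.1 * P.2.2 = (D : ℤ) ∧ (5 : ℤ) ∣ P.1
      · rw [if_pos h5, if_pos h5, R3_one h5.1 h3]
        by_cases h6 : (3 : ℤ) ∣ P.1
        · have h7 : (15 : ℤ) ∣ P.1 := by
            obtain ⟨a, ha⟩ := h5.2
            obtain ⟨b, hb⟩ := h6
            omega
          rw [if_pos h6, if_pos ⟨h5.1, h7⟩]
          unfold one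
          ring
        · have h7 : ¬ (15 : ℤ) ∣ P.1 := fun h => h6 (Dvd.dvd.trans ⟨5, by norm_num⟩ h)
          rw [if_neg h6, if_neg fun h => h7 h.2]
          unfold one
          ring
      · have h7 : ¬ (P.2.1 ^ 2 - 4 * P.1 * P.2.2 = (D : ℤ) ∧ (15 : ℤ) ∣ P.1) := fun h =>
          h5 ⟨h.1, Dvd.dvd.trans ⟨3, by norm_num⟩ h.2⟩
        rw [if_neg h5, if_neg h5, if_neg h7]
        ring
    · intro q hq
      exact sup_kw q (right_ne_zero_of_mul hq)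
    · intro q hq
      exact sup_kw q (right_ne_zero_of_mul hq)
  rw [h4] at h2
  have j1 := J_X hD hd hs (N := 15) (ρ := one) (per_one 15) (fun _ => rfl) 1 (m := 3) (by norm_num)
  have j2 := J_X hD hd hs (N := 15) (ρ := one) (per_one 15) (fun _ => rfl) 0 (m := 1) (by norm_num)
  have j3 := J_X hD hd hs (N := 5) (ρ := one) (per_one 5) (fun _ => rfl) 0 (m := 1) (by norm_num)
  push_cast at j1 j2 j3 h2
  rw [j1, j2, j3] at h2
  linarith

/-- `U_3`, trivial orientation, `3` ramified -/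
theorem U3_ram (hD : Fd D) (hd : d ∣ D) (hs : sgd D d = -1) (h3d : ¬ 3 ∣ d) (h3 : 3 ∣ D) :
    2 * J 15 one D d 1 3 + J 15 one D d 0 1 =
      chps D d 3 * (J 5 one D d 0 1 - J 15 one D d 0 1) := by
  have h1 := sum3 hD hd hs (per_one 15)
  have h2 := U_kw (N := 5) (ρ := one) hD hd Nat.prime_three h3d
  have e15 : ((3 : ℕ) : ℤ) * 5 = 15 := by norm_num
  rw [e15, h1] at h2
  have h4 : X (fun P => if P.2.1 ^ 2 - 4 * P.1 * P.2.2 = (D : ℤ) ∧ (5 : ℤ) ∣ P.1 then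
      R one 3 P * ps D d P else 0) 0 1 =
      X (kw 5 D one (ps D d)) 0 1 + X (fun q => (-1) * kw 15 D one (ps D d) q) 0 1 := by
    rw [← X_add' (nsq hD) sup_kw ?_ (Or.inr one_ne_zero)]
    · congr 1
      funext P
      unfold kw
      by_cases h5 : P.2.1 ^ 2 - 4 * P.1 * P.2.2 = (D : ℤ) ∧ (5 : ℤ) ∣ P.1
      · rw [if_pos h5, if_pos h5, R3_ram h5.1 hD h3]
        by_cases h6 : (3 : ℤ) ∣ P.1
        · have h7 : (15 : ℤ) ∣ P.1 := by
            obtain ⟨a, ha⟩ := h5.2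
            obtain ⟨b, hb⟩ := h6
            omega
          rw [if_pos h6, if_pos ⟨h5.1, h7⟩]
          unfold one
          ring
        · have h7 : ¬ (15 : ℤ) ∣ P.1 := fun h => h6 (Dvd.dvd.trans ⟨5, by norm_num⟩ h)
          rw [if_neg h6, if_neg fun h => h7 h.2]
          unfold one
          ring
      · have h7 : ¬ (P.2.1 ^ 2 - 4 * P.1 * P.2.2 = (D : ℤ) ∧ (15 : ℤ) ∣ P.1) := fun h =>
          h5 ⟨h.1, Dvd.dvd.trans ⟨3, by norm_num⟩ h.2⟩
        rw [if_neg h5, if_neg h5, if_neg h7]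
        ring
    · intro q hq
      exact sup_kw q (right_ne_zero_of_mul hq)
  rw [h4, X_mul] at h2
  have j1 := J_X hD hd hs (N := 15) (ρ := one) (per_one 15) (fun _ => rfl) 1 (m := 3) (by norm_num)
  have j2 := J_X hD hd hs (N := 15) (ρ := one) (per_one 15) (fun _ => rfl) 0 (m := 1) (by norm_num)
  have j3 := J_X hD hd hs (N := 5) (ρ := one) (per_one 5) (fun _ => rfl) 0 (m := 1) (by norm_num)
  push_cast at j1 j2 j3 h2
  rw [j1, j2, j3] at h2
  linarith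

/-- `U_5`, trivial orientation -/
theorem U5_one (hD : Fd D) (hd : d ∣ D) (hs : sgd D d = -1) (h5d : ¬ 5 ∣ d)
    (h5 : jacobiSym D 5 = 1) :
    J 15 one D d 0 1 + 2 * J 15 one D d 1 5 + 2 * J 15 one D d 2 5 =
      chps D d 5 * (2 * J 3 one D d 0 1 - J 15 one D d 0 1) := by
  have h1 := sum5 hD hd hs (per_one 15)
  have h2 := U_kw (N := 3) (ρ := one) hD hd Nat.prime_five h5d
  have e15 : ((5 : ℕ) : ℤ) * 3 = 15 := by norm_num
  rw [e15, h1] at h2
  have h4 : X (fun P => if P.2.1 ^ 2 - 4 * P.1 * P.2.2 = (D : ℤ) ∧ (3 : ℤ) ∣ P.1 then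
      R one 5 P * ps D d P else 0) 0 1 =
      2 * X (kw 3 D one (ps D d)) 0 1 + (-1) * X (kw 15 D one (ps D d)) 0 1 := by
    rw [← X_mul, ← X_mul, ← X_add' (nsq hD) ?_ ?_ (Or.inr one_ne_zero)]
    · congr 1
      funext P
      unfold kw
      by_cases h5' : P.2.1 ^ 2 - 4 * P.1 * P.2.2 = (D : ℤ) ∧ (3 : ℤ) ∣ P.1
      · rw [if_pos h5', if_pos h5', R5_one h5'.1 h5]
        by_cases h6 : (5 : ℤ) ∣ P.1
        · have h7 : (15 : ℤ) ∣ P.1 := by
            obtain ⟨a, ha⟩ := h5'.2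
            obtain ⟨b, hb⟩ := h6
            omega
          rw [if_pos h6, if_pos ⟨h5'.1, h7⟩]
          unfold one
          ring
        · have h7 : ¬ (15 : ℤ) ∣ P.1 := fun h => h6 (Dvd.dvd.trans ⟨3, by norm_num⟩ h)
          rw [if_neg h6, if_neg fun h => h7 h.2]
          unfold one
          ring
      · have h7 : ¬ (P.2.1 ^ 2 - 4 * P.1 * P.2.2 = (D : ℤ) ∧ (15 : ℤ) ∣ P.1) := fun h =>
          h5' ⟨h.1, Dvd.dvd.trans ⟨5, by norm_num⟩ h.2⟩
        rw [if_neg h5', if_neg h5', if_neg h7]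
        ring
    · intro q hq
      exact sup_kw q (right_ne_zero_of_mul hq)
    · intro q hq
      exact sup_kw q (right_ne_zero_of_mul hq)
  rw [h4] at h2
  have j1 := J_X hD hd hs (N := 15) (ρ := one) (per_one 15) (fun _ => rfl) 1 (m := 5) (by norm_num)
  have j1' := J_X hD hd hs (N := 15) (ρ := one) (per_one 15) (fun _ => rfl) 2 (m := 5) (by norm_num)
  have j2 := J_X hD hd hs (N := 15) (ρ := one) (per_one 15) (fun _ => rfl) 0 (m := 1) (by norm_num)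
  have j3 := J_X hD hd hs (N := 3) (ρ := one) (per_one 3) (fun _ => rfl) 0 (m := 1) (by norm_num)
  push_cast at j1 j1' j2 j3 h2
  rw [j1, j1', j2, j3] at h2
  linarith

/-- `U_3`, both orientations -/
theorem U3_w (hD : Fd D) (hd : d ∣ D) (hs : sgd D d = -1) (h3d : ¬ 3 ∣ d) (h3 : D % 3 = 1) :
    2 * J 15 w35 D d 1 3 + J 15 w35 D d 0 1 = chps D d 3 * J 15 w35 D d 0 1 := by
  have h1 := sum3 hD hd hs per_w35
  have h2 := U_kw (N := 5) (ρ := w35) hD hd Nat.prime_three h3d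
  have e15 : ((3 : ℕ) : ℤ) * 5 = 15 := by norm_num
  rw [e15, h1] at h2
  have h4 : X (fun P => if P.2.1 ^ 2 - 4 * P.1 * P.2.2 = (D : ℤ) ∧ (5 : ℤ) ∣ P.1 then
      R w35 3 P * ps D d P else 0) 0 1 = X (kw 15 D w35 (ps D d)) 0 1 := by
    congr 1
    funext P
    unfold kw
    by_cases h5 : P.2.1 ^ 2 - 4 * P.1 * P.2.2 = (D : ℤ) ∧ (5 : ℤ) ∣ P.1
    · rw [if_pos h5, R3_w h5.1 h3 h5.2]
      by_cases h6 : (3 : ℤ) ∣ P.1
      · have h7 : (15 : ℤ) ∣ P.1 := by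
          obtain ⟨a, ha⟩ := h5.2
          obtain ⟨b, hb⟩ := h6
          omega
        rw [if_pos h6, if_pos ⟨h5.1, h7⟩]
      · have h7 : ¬ (15 : ℤ) ∣ P.1 := fun h => h6 (Dvd.dvd.trans ⟨5, by norm_num⟩ h)
        rw [if_neg h6, if_neg fun h => h7 h.2, zero_mul]
    · have h7 : ¬ (P.2.1 ^ 2 - 4 * P.1 * P.2.2 = (D : ℤ) ∧ (15 : ℤ) ∣ P.1) := fun h =>
        h5 ⟨h.1, Dvd.dvd.trans ⟨3, by norm_num⟩ h.2⟩
      rw [if_neg h5, if_neg h7]
  rw [h4] at h2
  have j1 := J_X hD hd hs (N := 15) per_w35 even_w35 1 (m := 3) (by norm_num)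
  have j2 := J_X hD hd hs (N := 15) per_w35 even_w35 0 (m := 1) (by norm_num)
  push_cast at j1 j2 h2
  rw [j1, j2] at h2
  linarith

/-- `U_5`, both orientations -/
theorem U5_w (hD : Fd D) (hd : d ∣ D) (hs : sgd D d = -1) (h5d : ¬ 5 ∣ d)
    (h5 : jacobiSym D 5 = 1) :
    J 15 w35 D d 0 1 + 2 * J 15 w35 D d 1 5 + 2 * J 15 w35 D d 2 5 =
      chps D d 5 * J 15 w35 D d 0 1 := by
  have h1 := sum5 hD hd hs per_w35
  have h2 := U_kw (N := 3) (ρ := w35) hD hd Nat.prime_five h5d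
  have e15 : ((5 : ℕ) : ℤ) * 3 = 15 := by norm_num
  rw [e15, h1] at h2
  have h4 : X (fun P => if P.2.1 ^ 2 - 4 * P.1 * P.2.2 = (D : ℤ) ∧ (3 : ℤ) ∣ P.1 then
      R w35 5 P * ps D d P else 0) 0 1 = X (kw 15 D w35 (ps D d)) 0 1 := by
    congr 1
    funext P
    unfold kw
    by_cases h5' : P.2.1 ^ 2 - 4 * P.1 * P.2.2 = (D : ℤ) ∧ (3 : ℤ) ∣ P.1
    · rw [if_pos h5', R5_w h5'.1 h5 h5'.2]
      by_cases h6 : (5 : ℤ) ∣ P.1
      · have h7 : (15 : ℤ) ∣ P.1 := by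
          obtain ⟨a, ha⟩ := h5'.2
          obtain ⟨b, hb⟩ := h6
          omega
        rw [if_pos h6, if_pos ⟨h5'.1, h7⟩]
      · have h7 : ¬ (15 : ℤ) ∣ P.1 := fun h => h6 (Dvd.dvd.trans ⟨3, by norm_num⟩ h)
        rw [if_neg h6, if_neg fun h => h7 h.2, zero_mul]
    · have h7 : ¬ (P.2.1 ^ 2 - 4 * P.1 * P.2.2 = (D : ℤ) ∧ (15 : ℤ) ∣ P.1) := fun h =>
        h5' ⟨h.1, Dvd.dvd.trans ⟨5, by norm_num⟩ h.2⟩
      rw [if_neg h5', if_neg h7]
  rw [h4] at h2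
  have j1 := J_X hD hd hs (N := 15) per_w35 even_w35 1 (m := 5) (by norm_num)
  have j1' := J_X hD hd hs (N := 15) per_w35 even_w35 2 (m := 5) (by norm_num)
  have j2 := J_X hD hd hs (N := 15) per_w35 even_w35 0 (m := 1) (by norm_num)
  push_cast at j1 j1' j2 h2
  rw [j1, j1', j2] at h2
  linarith

/-- `W_5`, trivial orientation -/
theorem W5_one (hD : Fd D) (hd : d ∣ D) (hs : sgd D d = -1) (h5d : ¬ 5 ∣ d)
    (hχ : chps D d 5 * chps D d 5 = 1) :
    J 15 one D d 1 3 * (1 + chps D d 5) = 0 := by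
  have h := al_kw (Q := 5) (M := 3) (a := 1) (b := -2) (c := 1) (e := -1) (ρ := one) (σ := 1)
    hD hd (by norm_num) (by norm_num) (by norm_num) (by
      intro p hp hp5
      have hpp := Nat.prime_of_mem_primeFactors hp
      have h4 : p ∣ 5 := by exact_mod_cast hp5
      have h5 := (Nat.prime_dvd_prime_iff_eq hpp Nat.prime_five).1 h4
      exact h5d (h5 ▸ Nat.dvd_of_mem_primeFactors hp)) (by norm_num) hχ
      (fun _ _ _ _ => by unfold one; norm_num) (x := 1) (m := 3) (Or.inl one_ne_zero)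
  norm_num at h
  have e0 : X (kw 15 D one (ps D d)) (-1) 0 = 0 := X_inf (by norm_num)
  have e1 : X (kw 15 D one (ps D d)) 5 15 = X (kw 15 D one (ps D d)) 1 3 := by
    have := X_smul (k := kw 15 D one (ps D d)) (g := 5) (by norm_num) 1 3
    norm_num at this
    exact this
  rw [e0, e1] at h
  have j1 := J_X hD hd hs (N := 15) (ρ := one) (per_one 15) (fun _ => rfl) 1 (m := 3) (by norm_num)
  push_cast at j1
  rw [j1] at h
  linarith

/-- `W_3` -/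
theorem W3 (hD : Fd D) (hd : d ∣ D) (hs : sgd D d = -1) (h3d : ¬ 3 ∣ d)
    (hχ : chps D d 3 * chps D d 3 = 1) {ρ : ℤ → ℤ} {σ : ℤ} (hσ : σ * σ = 1)
    (hρ : ∀ b b' : ℤ, 2 * (15 : ℤ) ∣ b' - b → ρ b' = ρ b) (he : ∀ b, ρ (-b) = ρ b)
    (ha : ∀ b b' : ℤ, (3 : ℤ) ∣ b' + b → (5 : ℤ) ∣ b' - b → ρ b' = σ * ρ b) :
    J 15 ρ D d 1 5 = -(σ * chps D d 3) * J 15 ρ D d 2 5 ∧
    J 15 ρ D d 0 1 - J 15 ρ D d 1 5 = σ * chps D d 3 * J 15 ρ D d 1 3 := by
  have h0 : ∀ p ∈ d.primeFactors, ¬ (p : ℤ) ∣ 3 := by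
    intro p hp hp5
    have hpp := Nat.prime_of_mem_primeFactors hp
    have h4 : p ∣ 3 := by exact_mod_cast hp5
    have h5 := (Nat.prime_dvd_prime_iff_eq hpp Nat.prime_three).1 h4
    exact h3d (h5 ▸ Nat.dvd_of_mem_primeFactors hp)
  have h1 := al_kw (Q := 3) (M := 5) (a := 1) (b := 1) (c := 1) (e := 2)
    hD hd (by norm_num) (by norm_num) (by norm_num) h0 hσ hχ ha (x := -2) (m := 5)
    (Or.inl (by norm_num))
  have h2 := al_kw (Q := 3) (M := 5) (a := 1) (b := 1) (c := 1) (e := 2)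
    hD hd (by norm_num) (by norm_num) (by norm_num) h0 hσ hχ ha (x := -1) (m := 3)
    (Or.inl (by norm_num))
  norm_num at h1 h2
  have e0 : X (kw 15 D ρ (ps D d)) (-1) 0 = 0 := X_inf (by norm_num)
  have e1 : X (kw 15 D ρ (ps D d)) 3 15 = X (kw 15 D ρ (ps D d)) 1 5 := by
    have := X_smul (k := kw 15 D ρ (ps D d)) (g := 3) (by norm_num) 1 5
    norm_num at this
    exact this
  have e2 : X (kw 15 D ρ (ps D d)) 0 3 = X (kw 15 D ρ (ps D d)) 0 1 := by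
    have := X_smul (k := kw 15 D ρ (ps D d)) (g := 3) (by norm_num) 0 1
    norm_num at this
    exact this
  rw [e0, e1, X_even hD hd hs] at h1
  rw [e1, e2, X_even hD hd hs] at h2
  have j1 := J_X hD hd hs (N := 15) hρ he 1 (m := 5) (by norm_num)
  have j2 := J_X hD hd hs (N := 15) hρ he 2 (m := 5) (by norm_num)
  have j3 := J_X hD hd hs (N := 15) hρ he 1 (m := 3) (by norm_num)
  have j4 := J_X hD hd hs (N := 15) hρ he 0 (m := 1) (by norm_num)
  push_cast at j1 j2 j3 j4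
  rw [j1, j2] at h1
  rw [j1, j3, j4] at h2
  constructor <;> linarith

end

end Pool.Agent.N971.RQ
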