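import Pool.Agent.N971.RQ.Cnt
import Pool.Agent.N971.RQ.Chv
import Pool.Agent.N971.RQ.Rel15b
import Pool.Agent.N975.RQ.SW

/-!
# NEG15 (project RQ): evaluation of the crossing numbers at level `15`, negative divisors
-/

set_option autoImplicit false

namespace Pool.Agent.N971.RQ

open Finset
open Pool.Agent.N969.RQ (Fd Un ud sgd ps J o3 o5 o7 one R15 R15r S_NEG15 S_NEG15r)
open Pool.Agent.N975.RQ (Gc Wt Par U X kw wt_kw X_kw par_kw U_fin X_inf X_smul X_neg X_mod X_add_mul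
  t_SW)

noncomputable section

variable {D d : ℕ}

/-- Fricke -/
theorem W15 (hD : Fd D) (hd : d ∣ D) (hs : sgd D d = -1) (h3d : ¬ 3 ∣ d) (h5d : ¬ 5 ∣ d)
    (hχ : chps D d 15 = 1) : J 15 one D d 0 1 = 0 := by
  have h := al_kw (Q := 15) (M := 1) (a := 0) (b := 1) (c := -1) (e := 0) (ρ := one) (σ := 1)
    hD hd (by norm_num) (by norm_num) (by norm_num) (by
      intro p hp hp5
      have hpp := Nat.prime_of_mem_primeFactors hp
      have h4 : p ∣ 3 * 5 := by exact_mod_cast hp5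
      rcases (Nat.Prime.dvd_mul hpp).1 h4 with h4 | h4
      · have h5 := (Nat.prime_dvd_prime_iff_eq hpp Nat.prime_three).1 h4
        exact h3d (h5 ▸ Nat.dvd_of_mem_primeFactors hp)
      · have h5 := (Nat.prime_dvd_prime_iff_eq hpp Nat.prime_five).1 h4
        exact h5d (h5 ▸ Nat.dvd_of_mem_primeFactors hp)) (by norm_num) (by rw [hχ, one_mul])
      (fun _ _ _ _ => by unfold one; norm_num) (x := 0) (m := 1) (Or.inr one_ne_zero)
  norm_num at h
  have e0 : X (kw 15 D one (ps D d)) 1 0 = 0 := X_inf (by norm_num)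
  have e1 : X (kw 15 D one (ps D d)) 0 (-15) = X (kw 15 D one (ps D d)) 0 1 := by
    have := X_smul (k := kw 15 D one (ps D d)) (g := -15) (by norm_num) 0 1
    norm_num at this
    exact this
  rw [e0, e1, hχ] at h
  have j1 := J_X hD hd hs (N := 15) (ρ := one) (per_one 15) (fun _ => rfl) 0 (m := 1) (by norm_num)
  push_cast at j1
  rw [j1] at h
  linarith

/-- the odd one of the two divisors -/
theorem switch (hD : Fd D) (hU : Un D d) (hs : sgd D d = -1) : ∃ n e : ℕ, N295.P15.Fd n ∧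
    D = n * e ∧ ((n = d ∧ e = D / d) ∨ (n = D / d ∧ e = d)) ∧
    ∀ N : ℕ, J N one D n 0 1 = J N one D d 0 1 := by
  by_cases h2 : 2 ∣ d
  · obtain ⟨hU', he⟩ := Pool.Agent.N970.RQ.Un_co hD hU
    have hs' : sgd D (D / d) = -1 := by
      have := Pool.Agent.N970.RQ.sgd_co hD hU
      rw [hs] at this
      linarith
    have h2' : ¬ 2 ∣ D / d := by
      intro h
      have := Nat.dvd_gcd h2 h
      rw [hU.2] at this
      omega
    exact ⟨D / d, d, ⟨Pool.Agent.N970.RQ.sq_of_odd hD hU'.1 h2',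
      Pool.Agent.N970.RQ.mod_of_sgd hD hU'.1 h2' hs'⟩, (Nat.div_mul_cancel hU.1).symm,
      Or.inr ⟨rfl, rfl⟩, fun N => t_SW N one D d 0 1 hD hU⟩
  · exact ⟨d, D / d, ⟨Pool.Agent.N970.RQ.sq_of_odd hD hU.1 h2,
      Pool.Agent.N970.RQ.mod_of_sgd hD hU.1 h2 hs⟩, (Nat.mul_div_cancel' hU.1).symm,
      Or.inl ⟨rfl, rfl⟩, fun N => rfl⟩

theorem nd5 (h5 : jacobiSym D 5 = 1) {m : ℕ} (hm : m ∣ D) : ¬ 5 ∣ m := by
  intro h
  have h1 : (5 : ℤ) ∣ D := by exact_mod_cast h.trans hm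
  have h2 : (D : ℤ) % ((5 : ℕ) : ℤ) = 0 := by
    push_cast
    exact Int.emod_eq_zero_of_dvd h1
  rw [jacobiSym.mod_left, h2] at h5
  norm_num at h5

/-- the value of the crossing number at level `5` -/
theorem J5_val (hD : Fd D) (hU : Un D d) (hs : sgd D d = -1) (h5 : jacobiSym D 5 = 1)
    (hd5 : jacobiSym d 5 = -1) : 6 * J 5 one D d 0 1 =
      -(Pool.Agent.N969.P15.rr d * Pool.Agent.N969.P15.rr (D / d : ℕ)) := by
  obtain ⟨n, e, hn, hne, hc, hJ⟩ := switch hD hU hs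
  have h5n : ¬ 5 ∣ n := nd5 h5 (Dvd.intro e hne.symm)
  have hmul : D = d * (D / d) := (Nat.mul_div_cancel' hU.1).symm
  have hn5 : jacobiSym (-(n : ℤ)) 5 = -1 := by
    rw [js5_neg]
    rcases hc with ⟨h1, -⟩ | ⟨h1, -⟩
    · rw [h1, hd5]
    · rw [hmul, Nat.cast_mul, jacobiSym.mul_left, hd5] at h5
      rw [h1]
      linarith
  rw [← hJ, J5_inert hD hn hne h5n hn5]
  rcases hc with ⟨h1, h2⟩ | ⟨h1, h2⟩
  · rw [h1, h2]
  · rw [h1, h2, mul_comm]

/-- the value of the crossing number at level `3` -/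
theorem J3_val (hD : Fd D) (hU : Un D d) (hs : sgd D d = -1) (h3 : D % 3 = 1 ∨ 3 ∣ D)
    (hd3 : d % 3 = 1) : 12 * J 3 one D d 0 1 =
      -(Pool.Agent.N877.P21.rr d * Pool.Agent.N877.P21.rr (D / d : ℕ)) := by
  obtain ⟨n, e, hn, hne, hc, hJ⟩ := switch hD hU hs
  have hmul : D = d * (D / d) := (Nat.mul_div_cancel' hU.1).symm
  have key : 12 * J 3 one D n 0 1 =
      -(Pool.Agent.N877.P21.rr n * Pool.Agent.N877.P21.rr e) := by
    by_cases h3n : 3 ∣ n
    · exact J3_ram hD hn hne h3n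
    · refine J3_inert hD hn hne h3n (js3_one ?_)
      rcases hc with ⟨h1, -⟩ | ⟨h1, -⟩
      · rw [h1, hd3]
      · have h4 : D % 3 = (D / d) % 3 := by
          conv_lhs => rw [hmul, Nat.mul_mod, hd3, one_mul, Nat.mod_mod]
        rw [h1]
        rcases h3 with h3 | h3
        · omega
        · omega
  rw [← hJ, key]
  rcases hc with ⟨h1, h2⟩ | ⟨h1, h2⟩
  · rw [h1, h2]
  · rw [h1, h2, mul_comm]

/-- the trivial orientation, with the relation of `U_3` -/
theorem neg_gen (hD : Fd D) (hU : Un D d) (hs : sgd D d = -1) (h3d : ¬ 3 ∣ d)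
    (h5 : jacobiSym D 5 = 1) (h3 : D % 3 = 1 ∨ 3 ∣ D) {κ : ℤ}
    (hU3 : 2 * J 15 one D d 1 3 + J 15 one D d 0 1 =
      chps D d 3 * (κ * J 5 one D d 0 1 - J 15 one D d 0 1)) :
    36 * (J 15 one D d 1 3 + J 15 one D d 0 1) =
    (if jacobiSym d 5 = -1 then (if d % 3 = 1 then 3 * κ else -(3 * κ)) *
      (Pool.Agent.N969.P15.rr d * Pool.Agent.N969.P15.rr (D / d : ℕ))
      else - (N877.P21.rr d * N877.P21.rr (D / d : ℕ))) := by
  have h5d := nd5 h5 hU.1
  have hχ3 := chps_three hD hU hs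
  have hχ5 := chps_five hD hU hs
  have hχ15 : chps D d 15 = chps D d 3 * chps D d 5 := by
    rw [← chps_mul]
    norm_num
  have hd3 : d % 3 = 1 ∨ d % 3 = 2 := by omega
  by_cases hd5 : jacobiSym d 5 = -1
  · rw [if_pos hd5]
    have hX := J5_val hD hU hs h5 hd5
    rw [hd5] at hχ5
    rcases hd3 with hd3 | hd3
    · rw [js3_one hd3] at hχ3
      rw [if_pos hd3]
      rw [hχ3] at hU3
      have h0 := W15 hD hU.1 hs h3d h5d (by rw [hχ15, hχ3, hχ5]; norm_num)
      rw [h0] at hU3 ⊢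
      linear_combination 18 * hU3 - 3 * κ * hX
    · rw [js3_two hd3] at hχ3
      rw [if_neg (by omega)]
      rw [hχ3] at hU3
      linear_combination 18 * hU3 + 3 * κ * hX
  · rw [if_neg hd5]
    have hd5' : jacobiSym d 5 = 1 := by
      have hg : Int.gcd (d : ℤ) (5 : ℕ) = 1 := by
        rw [Int.gcd_natCast_natCast]
        exact ((Nat.Prime.coprime_iff_not_dvd Nat.prime_five).2 h5d).symm
      rcases jacobiSym.eq_one_or_neg_one hg with h1 | h1
      · exact h1
      · exact absurd h1 hd5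
    rw [hd5'] at hχ5
    have hW := W5_one hD hU.1 hs h5d (by rw [hχ5, one_mul])
    rw [hχ5] at hW
    have hJ1 : J 15 one D d 1 3 = 0 := by linarith
    rcases hd3 with hd3 | hd3
    · rw [js3_one hd3] at hχ3
      have hX := J3_val hD hU hs h3 hd3
      have hU5 := U5_one hD hU.1 hs h5d h5
      rw [hχ5] at hU5
      obtain ⟨h6, h7⟩ := W3 hD hU.1 hs h3d (by rw [hχ3]; norm_num) (σ := 1) (by norm_num)
        (per_one 15) (fun _ => rfl) (fun _ _ _ _ => by unfold one; norm_num)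
      rw [hχ3] at h6 h7
      rw [hJ1] at h7 ⊢
      linarith
    · rw [js3_two hd3] at hχ3
      have h0 := W15 hD hU.1 hs h3d h5d (by rw [hχ15, hχ3, hχ5]; norm_num)
      rw [hJ1, h0, rr21_zero hd3]
      ring

/-- **NEG15** -/
theorem t_NEG15 : S_NEG15 := by
  intro D d hR hU hs
  obtain ⟨hD, h3, h5⟩ := hR
  have h3d : ¬ 3 ∣ d := fun h => by
    have := h.trans hU.1
    omega
  refine ⟨?_, ?_⟩
  · have h := neg_gen hD hU hs h3d h5 (Or.inl h3) (κ := 2)
      (U3_one hD hU.1 hs h3d h3)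
    rw [h]
    norm_num
  · have h5d := nd5 h5 hU.1
    have hχ3 := chps_three hD hU hs
    have hχ5 := chps_five hD hU hs
    have hU3 := U3_w hD hU.1 hs h3d h3
    have hd3 : d % 3 = 1 ∨ d % 3 = 2 := by omega
    have goal : J 15 w35 D d 1 3 + J 15 w35 D d 0 1 = 0 := by
      rcases hd3 with hd3 | hd3
      · rw [js3_one hd3] at hχ3
        rw [hχ3] at hU3
        linarith
      · rw [js3_two hd3] at hχ3
        rw [hχ3] at hU3
        have hJ1 : J 15 w35 D d 1 3 = 0 := by linarith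
        obtain ⟨h6, h7⟩ := W3 hD hU.1 hs h3d (by rw [hχ3]; norm_num) (σ := -1) (by norm_num)
          per_w35 even_w35 w35_al
        rw [hχ3] at h6 h7
        have hU5 := U5_w hD hU.1 hs h5d h5
        rw [hχ5] at hU5
        rw [hJ1] at h7 ⊢
        have hg : Int.gcd (d : ℤ) (5 : ℕ) = 1 := by
          rw [Int.gcd_natCast_natCast]
          exact ((Nat.Prime.coprime_iff_not_dvd Nat.prime_five).2 h5d).symm
        rcases jacobiSym.eq_one_or_neg_one hg with h1 | h1
        · rw [h1] at hU5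
          linarith
        · rw [h1] at hU5
          linarith
    exact goal

/-- **NEG15r** -/
theorem t_NEG15r : S_NEG15r := by
  intro D d hR hU hs h3d
  obtain ⟨hD, h3, h5⟩ := hR
  have h := neg_gen hD hU hs h3d h5 (Or.inr h3) (κ := 1) (by
    rw [one_mul]
    exact U3_ram hD hU.1 hs h3d h3)
  rw [h]
  norm_num

end

end Pool.Agent.N971.RQ
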