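import Pool.Agent.N971.RQ.Ev
import Pool.Agent.N972.PC15.XC
import Pool.Agent.N878.PC21.XC
import Pool.Agent.N878.PC21.PC3
import Pool.Agent.N871.P15.Rel
import Pool.Agent.N218.P21.Rel

/-!
# RQ: the numbers of pairs of vectors
-/

set_option autoImplicit false

namespace Pool.Agent.N971.RQ

open Finset
open Pool.Agent.Z700 (hh fac)
open Pool.Agent.N295.P15 (Ps pf_prime pf_dvd fac4)
open Pool.Agent.N969.P15 (tw V3)
open Pool.Agent.N969.RQ (J one)

noncomputable section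

variable {D n e : ℕ}

theorem mem_TD {t : ℤ} : t ∈ TD D ↔ t ^ 2 < D ∧ (4 : ℤ) ∣ D - t ^ 2 := by
  unfold TD
  rw [Finset.mem_filter, Finset.mem_Ioo]
  refine ⟨fun h => h.2, fun h => ⟨?_, h⟩⟩
  have h1 : |t| < D := by
    have h2 : |t| ≤ t ^ 2 := by
      rw [← sq_abs]
      nlinarith [abs_nonneg t, Int.le_self_sq |t|]
    linarith [h.1]
  exact abs_lt.1 h1

/-- the pairs by their inner products -/
theorem sum_card {α : Type*} (hD : ¬ IsSquare (D : ℤ)) (S T : Finset α)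
    (f : α → α → ℤ) (h1 : ∀ v ∈ S, ∀ w ∈ T, f v w ^ 2 ≤ D)
    (h2 : ∀ v ∈ S, ∀ w ∈ T, (4 : ℤ) ∣ D - f v w ^ 2) :
    ∑ t ∈ TD D, (((S ×ˢ T).filter fun q => f q.1 q.2 = t).card : ℤ) =
      (S.card : ℤ) * T.card := by
  classical
  rw [← Nat.cast_mul, ← Finset.card_product,
    Finset.card_eq_sum_card_fiberwise (f := fun q : α × α => f q.1 q.2) (t := TD D)]
  · push_cast
    rfl
  · intro q hq
    have hq := Finset.mem_product.1 (Finset.mem_coe.1 hq)
    rw [Finset.mem_coe, mem_TD]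
    refine ⟨lt_of_le_of_ne (h1 _ hq.1 _ hq.2) ?_, h2 _ hq.1 _ hq.2⟩
    intro h3
    exact hD ⟨f q.1 q.2, by rw [← h3]; ring⟩

/-- the pairs of vectors of the first lattice -/
theorem sum_cp15 (hns : ¬ IsSquare (D : ℤ)) (hD : D = n * e) :
    ∑ t ∈ TD D, (Pool.Agent.N969.P15.cp n t e : ℤ) =
      Pool.Agent.N969.P15.rr n * Pool.Agent.N969.P15.rr e := by
  refine sum_card hns _ _ Pool.Agent.N969.P15.ip ?_ ?_
  · intro v hv w hw
    have h := Pool.Agent.N871.P15.cs v w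
    rw [Pool.Agent.N871.P15.mem_vec.1 hv, Pool.Agent.N871.P15.mem_vec.1 hw] at h
    rw [hD]
    push_cast
    exact h
  · intro v hv w hw
    have e1 : (D : ℤ) = Pool.Agent.N969.P15.ip v v * Pool.Agent.N969.P15.ip w w := by
      rw [Pool.Agent.N871.P15.mem_vec.1 hv, Pool.Agent.N871.P15.mem_vec.1 hw, hD]
      push_cast
      rfl
    rw [e1]
    refine ⟨5 * (2 * (v 1 * w 2 - v 2 * w 1) ^ 2 + (v 2 * w 0 - v 0 * w 2) ^ 2 +
      (v 0 * w 1 - v 1 * w 0) ^ 2 + (v 1 * w 2 - v 2 * w 1) * (v 2 * w 0 - v 0 * w 2) +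
      (v 1 * w 2 - v 2 * w 1) * (v 0 * w 1 - v 1 * w 0) +
      (v 2 * w 0 - v 0 * w 2) * (v 0 * w 1 - v 1 * w 0)), ?_⟩
    unfold Pool.Agent.N969.P15.ip
    ring

/-- the pairs of vectors of the second lattice -/
theorem sum_cp21 (hns : ¬ IsSquare (D : ℤ)) (hD : D = n * e) :
    ∑ t ∈ TD D, (Pool.Agent.N877.P21.cp n t e : ℤ) =
      Pool.Agent.N877.P21.rr n * Pool.Agent.N877.P21.rr e := by
  refine sum_card hns _ _ Pool.Agent.N877.P21.ip ?_ ?_
  · intro v hv w hw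
    have h := Pool.Agent.N218.P21.cs v w
    rw [Pool.Agent.N218.P21.mem_vec.1 hv, Pool.Agent.N218.P21.mem_vec.1 hw] at h
    rw [hD]
    push_cast
    exact h
  · intro v hv w hw
    have e1 : (D : ℤ) = Pool.Agent.N877.P21.ip v v * Pool.Agent.N877.P21.ip w w := by
      rw [Pool.Agent.N218.P21.mem_vec.1 hv, Pool.Agent.N218.P21.mem_vec.1 hw, hD]
      push_cast
      rfl
    rw [e1]
    refine ⟨3 * ((v 1 * w 0 - v 0 * w 1) ^ 2 + (v 1 * w 2 - v 2 * w 1) ^ 2 +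
        (v 0 * w 2 - v 2 * w 0) ^ 2 -
        (v 1 * w 0 - v 0 * w 1) * (v 0 * w 2 - v 2 * w 0)), ?_⟩
    unfold Pool.Agent.N877.P21.ip
    ring

/-- level `5`, inert -/
theorem J5_inert (hD : Pool.Agent.N969.RQ.Fd D) (h : N295.P15.Fd n) (hne : D = n * e)
    (h5 : ¬ 5 ∣ n) (hs : jacobiSym (-(n : ℤ)) 5 = -1) : 6 * J 5 one D n 0 1 =
      -(Pool.Agent.N969.P15.rr n * Pool.Agent.N969.P15.rr e) := by
  have h5n : 5 ∉ n.primeFactors := fun h1 => h5 ((h.mem Nat.prime_five).1 h1)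
  have hP : Ps n.primeFactors 5 = -1 := by
    rw [← hs]
    exact h.Ps_l Nat.prime_five (by norm_num) h5n
  rw [J_sum h (L := {5}) (fun a => by simp), ← sum_cp15 (nsq hD) hne, Finset.mul_sum,
    ← Finset.sum_neg_distrib]
  refine Finset.sum_congr rfl fun t ht => ?_
  have H := Hm_mm hD h (Dvd.intro e hne.symm) ht
  obtain ⟨h6, h7⟩ := mm_eq ht
  rw [TL_inert H h Nat.prime_five (by norm_num) h5n hP,
    Pool.Agent.N972.PC15.t_PC n e t (4 * mm D t) h.sq h.m4 h5 (by omega)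
      (by rw [h6, hne]; push_cast; ring)]
  unfold Pool.Agent.N969.P15.loc Gm
  rw [fac4 h7 Nat.prime_five (by norm_num), Finset.sdiff_singleton_eq_erase]
  ring

/-- level `3`, inert -/
theorem J3_inert (hD : Pool.Agent.N969.RQ.Fd D) (h : N295.P15.Fd n) (hne : D = n * e)
    (h3 : ¬ 3 ∣ n) (hs : jacobiSym (-(n : ℤ)) 3 = -1) : 12 * J 3 one D n 0 1 =
      -(Pool.Agent.N877.P21.rr n * Pool.Agent.N877.P21.rr e) := by
  have h3n : 3 ∉ n.primeFactors := fun h1 => h3 ((h.mem Nat.prime_three).1 h1)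
  have hP : Ps n.primeFactors 3 = -1 := by
    rw [← hs]
    exact h.Ps_l Nat.prime_three (by norm_num) h3n
  rw [J_sum h (L := {3}) (fun a => by simp), ← sum_cp21 (nsq hD) hne, Finset.mul_sum,
    ← Finset.sum_neg_distrib]
  refine Finset.sum_congr rfl fun t ht => ?_
  have H := Hm_mm hD h (Dvd.intro e hne.symm) ht
  obtain ⟨h6, h7⟩ := mm_eq ht
  rw [TL_inert H h Nat.prime_three (by norm_num) h3n hP,
    Pool.Agent.N878.PC21.t_PC n e t (4 * mm D t) h.sq h.m4 h3 (by omega)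
      (by rw [h6, hne]; push_cast; ring)]
  unfold Pool.Agent.N877.P21.loc Gm
  rw [fac4 h7 Nat.prime_three (by norm_num), Finset.sdiff_singleton_eq_erase]
  ring

/-- level `3`, ramified -/
theorem J3_ram (hD : Pool.Agent.N969.RQ.Fd D) (h : N295.P15.Fd n) (hne : D = n * e)
    (h3 : 3 ∣ n) : 12 * J 3 one D n 0 1 =
      -(Pool.Agent.N877.P21.rr n * Pool.Agent.N877.P21.rr e) := by
  have h3n : 3 ∈ n.primeFactors := (h.mem Nat.prime_three).2 h3
  rw [J_sum h (L := {3}) (fun a => by simp), ← sum_cp21 (nsq hD) hne, Finset.mul_sum,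
    ← Finset.sum_neg_distrib]
  refine Finset.sum_congr rfl fun t ht => ?_
  have H := Hm_mm hD h (Dvd.intro e hne.symm) ht
  obtain ⟨h6, h7⟩ := mm_eq ht
  have e1 := TL_ram H h Nat.prime_three (by norm_num) h3n
  rw [Pool.Agent.N878.PC21.t_PC3 n e t (4 * mm D t) h.sq h.m4 h3 (by omega)
      (by rw [h6, hne]; push_cast; ring)]
  have e2 : (3 ∣ 4 * mm D t) ↔ 3 ∣ mm D t :=
    ⟨fun h8 => (by norm_num : Nat.Coprime 3 4).dvd_of_dvd_mul_left h8, fun h8 => h8.mul_left 4⟩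
  unfold Pool.Agent.N877.P21.loc3
  unfold Gm at e1
  rw [Finset.sdiff_singleton_eq_erase] at e1
  simp only [e2]
  linear_combination 6 * e1

/-- level `3`, split -/
theorem J3_split (hD : Pool.Agent.N969.RQ.Fd D) (h : N295.P15.Fd n) (hn : n ∣ D)
    (h3 : ¬ 3 ∣ n) (hs : jacobiSym (-(n : ℤ)) 3 = 1) : J 3 one D n 0 1 = 0 := by
  have h3n : 3 ∉ n.primeFactors := fun h1 => h3 ((h.mem Nat.prime_three).1 h1)
  have hP : Ps n.primeFactors 3 = 1 := by
    rw [← hs]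
    exact h.Ps_l Nat.prime_three (by norm_num) h3n
  rw [J_sum h (L := {3}) (fun a => by simp)]
  refine Finset.sum_eq_zero fun t ht => ?_
  exact TL_split (Hm_mm hD h hn ht) h Nat.prime_three (by norm_num) h3n hP

end

end Pool.Agent.N971.RQ
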