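import Pool.Agent.N971.RQ.Xk

/-!
# RQ: the relations for the genus characters of negative discriminants
-/

set_option autoImplicit false

namespace Pool.Agent.N971.RQ

open Finset
open Pool.Agent.N969.RQ (Fd Un ud sgd ps J o3 o5 o7)
open Pool.Agent.N969.P17G (gen starP)
open Pool.Agent.N969.P15 (c2)
open Pool.Agent.N975.RQ (Gc Wt Par U X kw wt_kw X_kw par_kw U_fin X_inf X_smul X_neg X_mod X_add_mul)
open Pool.Agent.N975.Sym (ev act ev_act ev10)

noncomputable section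

variable {D d : ℕ}

theorem nsq (hD : Fd D) : ¬ IsSquare (D : ℤ) := by
  rintro ⟨t, ht⟩
  have h1 : D = t.natAbs * t.natAbs := by
    have := congrArg Int.natAbs ht
    rw [Int.natAbs_natCast, Int.natAbs_mul] at this
    exact this
  obtain ⟨h0, h | ⟨M, hM, h2, h4⟩⟩ := hD
  · have h5 := h.1 t.natAbs ⟨1, by rw [mul_one]; exact h1⟩
    rw [Nat.isUnit_iff] at h5
    rw [h5] at h1
    omega
  · have h5 : Even t.natAbs := by
      by_contra h6
      rw [Nat.not_even_iff_odd] at h6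
      have h7 : Odd (t.natAbs * t.natAbs) := h6.mul h6
      rw [← h1, hM] at h7
      exact (Nat.not_odd_iff_even.2 ⟨2 * M, by ring⟩) h7
    obtain ⟨u, hu⟩ := h5
    have h6 : M = u * u := by
      rw [hu] at h1
      have : 4 * M = 4 * (u * u) := by rw [← hM, h1]; ring
      omega
    have h7 := h2 u ⟨1, by rw [mul_one]; exact h6⟩
    rw [Nat.isUnit_iff] at h7
    rw [h7] at h6
    omega

theorem jac_m1 {p : ℕ} (hp : Odd p) : jacobiSym (-1) p = if p % 4 = 1 then 1 else -1 := by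
  rw [jacobiSym.at_neg_one hp]
  split_ifs with h
  · exact ZMod.χ₄_nat_one_mod_four h
  · exact ZMod.χ₄_nat_three_mod_four (by have := Nat.odd_iff.1 hp; omega)

/-- the sign of the discriminant is the value of the genus character at `-1` -/
theorem chps_neg (hD : Fd D) (hd : d ∣ D) : chps D d (-1) = sgd D d := by
  have hD0 : D ≠ 0 := by have := hD.1; omega
  have hd0 : d ≠ 0 := fun h => hD0 (by rw [h] at hd; exact zero_dvd_iff.1 hd)
  have key : ∀ p ∈ d.primeFactors.erase 2, jacobiSym (-1) p = Int.sign (starP D p) := by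
    intro p hp
    obtain ⟨hp2, hp⟩ := Finset.mem_erase.1 hp
    have hpp := Nat.prime_of_mem_primeFactors hp
    have hpos : (0 : ℤ) < p := by exact_mod_cast hpp.pos
    rw [jac_m1 (hpp.odd_of_ne_two hp2)]
    unfold starP
    rw [if_neg hp2]
    split_ifs
    · rw [Int.sign_eq_one_of_pos hpos]
    · rw [Int.sign_eq_neg_one_of_neg (by linarith)]
  unfold chps sgd
  rw [Finset.prod_congr rfl key]
  by_cases h2 : 2 ∣ d
  · have hmem : 2 ∈ d.primeFactors := Nat.mem_primeFactors.2 ⟨Nat.prime_two, h2, hd0⟩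
    rw [if_pos h2, ← Finset.mul_prod_erase _ _ hmem]
    congr 1
    have hC := c2_of hD (h2.trans hd)
    unfold Pool.Agent.N975.RQ.C2 at hC
    unfold c2 starP
    rw [if_pos rfl, if_neg (by norm_num)]
    rcases hC with ⟨h3, h4⟩ | ⟨h3, h4⟩ | ⟨h3, h4⟩
    · rw [if_pos h3, if_neg (by norm_num), if_pos (by omega)]
      rfl
    · rw [if_neg (by omega), if_pos h3, if_neg (by norm_num), if_neg (by omega), if_neg (by omega)]
      rfl
    · rw [if_neg (by omega), if_neg (by omega), if_pos (by norm_num), if_neg (by omega),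
        if_pos (by omega)]
      rfl
  · rw [if_neg h2, one_mul]
    have : d.primeFactors.erase 2 = d.primeFactors := by
      refine Finset.erase_eq_of_notMem fun h => h2 (Nat.dvd_of_mem_primeFactors h)
    rw [this]

/-- the crossing number in terms of the cocycle -/
theorem J_X (hD : Fd D) (hd : d ∣ D) (hs : sgd D d = -1) {N : ℕ} {ρ : ℤ → ℤ}
    (hρ : ∀ b b' : ℤ, 2 * (N : ℤ) ∣ b' - b → ρ b' = ρ b) (he : ∀ b, ρ (-b) = ρ b) (x : ℤ) {m : ℤ}
    (hm : m ≠ 0) : X (kw N D ρ (ps D d)) x m = 4 * J N ρ D d x m := by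
  rw [X_kw (nsq hD) hρ (gc_ps hD hd) x hm, chps_neg hD hd, hs]
  unfold J
  have e : ∀ q : ℤ × ℤ × ℤ, (if (q.2.1 ^ 2 - 4 * q.1 * q.2.2 = (D : ℤ) ∧ (N : ℤ) ∣ q.1) ∧ 0 < q.1 ∧
      ev q x m < 0 then (ρ q.2.1 - -1 * ρ (-q.2.1)) * ps D d q else 0) =
      2 * (if q.2.1 ^ 2 - 4 * q.1 * q.2.2 = (D : ℤ) ∧ (N : ℤ) ∣ q.1 ∧ 0 < q.1 ∧
        q.1 * x ^ 2 + q.2.1 * x * m + q.2.2 * m ^ 2 < 0 then ρ q.2.1 * ps D d q else 0) := by
    intro q
    have hev : ev q x m = q.1 * x ^ 2 + q.2.1 * x * m + q.2.2 * m ^ 2 := rfl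
    rw [he, ← hev]
    by_cases h : (q.2.1 ^ 2 - 4 * q.1 * q.2.2 = (D : ℤ) ∧ (N : ℤ) ∣ q.1) ∧ 0 < q.1 ∧ ev q x m < 0
    · rw [if_pos h, if_pos ⟨h.1.1, h.1.2, h.2.1, h.2.2⟩]
      ring
    · rw [if_neg h, if_neg (fun h' => h ⟨⟨h'.1, h'.2.1⟩, h'.2.2.1, h'.2.2.2⟩), mul_zero]
  rw [finsum_congr e, ← mul_finsum]
  ring

theorem X_even (hD : Fd D) (hd : d ∣ D) (hs : sgd D d = -1) {N : ℤ} {ρ : ℤ → ℤ} (x m : ℤ) :
    X (kw N D ρ (ps D d)) (-x) m = X (kw N D ρ (ps D d)) x m := by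
  have hp : Par (kw N D ρ (ps D d)) (-1) := by
    have := par_kw (N := N) (ρ := ρ) (gc_ps hD hd)
    rwa [chps_neg hD hd, hs] at this
  rw [X_neg (Or.inr rfl) hp]
  ring

theorem sup_kw {N : ℤ} {ρ : ℤ → ℤ} {ψ : ℤ × ℤ × ℤ → ℤ} : Sup (D : ℤ) (kw N D ρ ψ) := by
  intro q hq
  by_contra h
  exact hq (if_neg fun h' => h h'.1)

/-- the sum over the roots -/
def R (ρ : ℤ → ℤ) (p : ℕ) (P : ℤ × ℤ × ℤ) : ℤ :=
  ∑ j ∈ range p, if (p : ℤ) ∣ P.1 * (j : ℤ) ^ 2 - P.2.1 * j + P.2.2 then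
    ρ (P.2.1 - 2 * P.1 * j) else 0

/-- **the operator `U_p`** -/
theorem U_kw (hD : Fd D) (hd : d ∣ D) {p : ℕ} (hp : p.Prime) (hpd : ¬ p ∣ d) {N : ℤ}
    {ρ : ℤ → ℤ} : ∑ j ∈ range p, X (kw (p * N) D ρ (ps D d)) j p =
      chps D d p * X (fun P => if P.2.1 ^ 2 - 4 * P.1 * P.2.2 = (D : ℤ) ∧ N ∣ P.1 then
        R ρ p P * ps D d P else 0) 0 1 := by
  have hp0 : (0 : ℤ) < p := by exact_mod_cast hp.pos
  have hns := nsq hD
  have e1 : ∀ j ∈ range p, X (kw (p * N) D ρ (ps D d)) j p =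
      X (kU (kw (p * N) D ρ (ps D d)) p j) 0 1 := by
    intro j _
    refine X_U hp0 j fun q hq => ?_
    by_contra h
    refine hq (if_neg fun h' => h ?_)
    exact (Dvd.intro N rfl).trans h'.2
  rw [Finset.sum_congr rfl e1, ← X_mul, ← X_sum hns]
  · congr 1
    funext P
    have e2 : ∀ j ∈ range p, kU (kw (p * N) D ρ (ps D d)) p j P =
        if P.2.1 ^ 2 - 4 * P.1 * P.2.2 = (D : ℤ) ∧ N ∣ P.1 then
          chps D d p * ((if (p : ℤ) ∣ P.1 * (j : ℤ) ^ 2 - P.2.1 * j + P.2.2 then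
            ρ (P.2.1 - 2 * P.1 * j) else 0) * ps D d P) else 0 := by
      intro j _
      have hev : ev P (-j) 1 = P.1 * (j : ℤ) ^ 2 - P.2.1 * j + P.2.2 := by
        unfold ev
        ring
      unfold kU
      rw [hev]
      by_cases h1 : (p : ℤ) ∣ P.1 * (j : ℤ) ^ 2 - P.2.1 * j + P.2.2
      · rw [if_pos h1, if_pos h1]
        have h1' : (p : ℤ) ∣ ev P (-j) 1 := by rw [hev]; exact h1
        have hdisc := disc_dn hp0.ne' j h1'
        have hN : (p : ℤ) * N ∣ (dn p j P).1 ↔ N ∣ P.1 := by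
          show (p : ℤ) * N ∣ p * P.1 ↔ N ∣ P.1
          exact mul_dvd_mul_iff_left hp0.ne'
        unfold kw
        by_cases h2 : P.2.1 ^ 2 - 4 * P.1 * P.2.2 = (D : ℤ) ∧ N ∣ P.1
        · rw [if_pos ⟨hdisc.trans h2.1, hN.2 h2.2⟩, if_pos h2]
          have h3 : ps D d (dn p j P) = chps D d p * ps D d P := by
            refine ps_rel hD hd ?_ (by rw [hdisc, h2.1]) h2.1 ⟨1, 0, ?_⟩ ⟨j, p, ?_⟩
            · intro r hr hrp
              have hrr := Nat.prime_of_mem_primeFactors hr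
              have h4 : r ∣ p := by exact_mod_cast hrp
              have h5 := (Nat.prime_dvd_prime_iff_eq hrr hp).1 h4
              exact hpd (h5 ▸ Nat.dvd_of_mem_primeFactors hr)
            · unfold dn ev
              ring
            · obtain ⟨t, ht⟩ := h1'
              have e0 : dn p j P = (p * P.1, P.2.1 - 2 * P.1 * j, t) := by
                unfold dn
                rw [ht, Int.mul_ediv_cancel_left _ hp0.ne']
              rw [e0]
              unfold ev at ht ⊢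
              simp only
              linear_combination (-(p : ℤ)) * ht
          rw [h3]
          show ρ (P.2.1 - 2 * P.1 * j) * _ = _
          ring
        · rw [if_neg (fun h3 => h2 ⟨hdisc.symm.trans h3.1, hN.1 h3.2⟩), if_neg h2]
      · rw [if_neg h1, if_neg h1]
        simp
    rw [Finset.sum_congr rfl e2]
    by_cases h2 : P.2.1 ^ 2 - 4 * P.1 * P.2.2 = (D : ℤ) ∧ N ∣ P.1
    · simp only [if_pos h2]
      rw [← Finset.mul_sum, ← Finset.sum_mul]
      rfl
    · simp only [if_neg h2]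
      rw [Finset.sum_const_zero, mul_zero]
  · intro j _ P hP
    unfold kU at hP
    by_cases h1 : (p : ℤ) ∣ ev P (-(j : ℤ)) 1
    · rw [if_pos h1] at hP
      rw [← disc_dn hp0.ne' j h1]
      exact sup_kw _ hP
    · exact absurd (if_neg h1) hP
  · right
    norm_num

/-- **Atkin-Lehner for the weights of genus characters** -/
theorem al_kw (hD : Fd D) (hd : d ∣ D) {Q M a b c e : ℤ} (hQ : 0 < Q) (hM : 0 < M)
    (h : Q * a * e - M * b * c = 1) (hQd : ∀ p ∈ d.primeFactors, ¬ (p : ℤ) ∣ Q)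
    {ρ : ℤ → ℤ} {σ : ℤ} (hσ : σ * σ = 1) (hχ : chps D d Q * chps D d Q = 1)
    (hρ : ∀ b b' : ℤ, Q ∣ b' + b → M ∣ b' - b → ρ b' = σ * ρ b)
    {x m : ℤ} (hxm : x ≠ 0 ∨ m ≠ 0) :
    X (kw (Q * M) D ρ (ps D d)) (Q * a * x + b * m) (Q * M * c * x + Q * e * m) -
      X (kw (Q * M) D ρ (ps D d)) (Q * a) (Q * M * c) =
      σ * chps D d Q * X (kw (Q * M) D ρ (ps D d)) x m := by
  have hQM : Q * M ≠ 0 := by positivity
  refine X_al (nsq hD) sup_kw hQ hM h ?_ ?_ ?_ hxm
  · intro q hq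
    by_contra h
    exact hq (if_neg fun h' => h h'.2)
  · calc σ * chps D d Q * (σ * chps D d Q) = (σ * σ) * (chps D d Q * chps D d Q) := by ring
      _ = 1 := by rw [hσ, hχ, one_mul]
  · intro q hq1 hq2
    have hdisc := al_disc hQM h hq2
    rw [hq1] at hdisc
    unfold kw
    rw [if_pos ⟨hdisc, dvd_mul_right _ _⟩, if_pos ⟨hq1, hq2⟩]
    have h3 : ps D d q = chps D d Q * ps D d (al Q M a b c e q) := by
      refine ps_rel hD hd hQd hq1 hdisc ⟨Q * a, Q * M * c, ?_⟩ ⟨b, Q * e, ?_⟩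
      · have := al_ev (a := a) (b := b) (c := c) (e := e) hQM hq2 1 0
        rw [ev10] at this
        rw [this]
        congr 1 <;> ring
      · have := al_ev (a := a) (b := b) (c := c) (e := e) hQM hq2 0 1
        have e1 : ev (al Q M a b c e q) 0 1 = (al Q M a b c e q).2.2 := by
          unfold ev
          ring
        rw [e1] at this
        rw [this]
        congr 1 <;> ring
    have h4 : ρ (al Q M a b c e q).2.1 = σ * ρ q.2.1 := by
      obtain ⟨r, hr⟩ := hq2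
      refine hρ _ _ ⟨2 * M * (q.1 / (Q * M)) * a * b + 2 * q.2.1 * a * e +
        2 * q.2.2 * M * c * e, ?_⟩ ⟨2 * Q * (q.1 / (Q * M)) * a * b + 2 * q.2.1 * b * c +
          2 * q.2.2 * Q * c * e, ?_⟩
      · unfold al
        simp only
        linear_combination (-q.2.1) * h
      · unfold al
        simp only
        linear_combination q.2.1 * h
    rw [h3, h4]
    linear_combination (-(σ * ρ q.2.1 * ps D d (al Q M a b c e q))) * hχ

end

end Pool.Agent.N971.RQ
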