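import Pool.Agent.N971.RQ.Loc
import Pool.Agent.N971.RQ.Rel

/-!
# RQ: the crossing number between `∞` and `0` as a sum of divisor sums
-/

set_option autoImplicit false

namespace Pool.Agent.N971.RQ

open Finset
open Pool.Agent.Z700 (hh fac)
open Pool.Agent.Y574.Z7 (chp chp_mul chp_one chp_self chp_nd chp_sq chp_pm jac_eq sum_local two_pt
  one_sum alt_sum dvd_fac nd4)
open Pool.Agent.N295.P15 (Ps Ps_one Ps_mul Ps_fac Ps_pm pf_prime pf_dvd fac4 chp4 pf_four fac42)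
open Pool.Agent.N969.P15 (tw ep2)
open Pool.Agent.N969.RQ (Un ud sgd ps J one)

noncomputable section

/-! ### the divisor sums with level -/

/-- the divisor sum with level -/
def TL (n m : ℕ) (L : Finset ℕ) : ℤ :=
  ∑ a ∈ m.divisors, if ∀ l ∈ L, l ∣ a then gch n m a else 0

variable {n : ℕ}

theorem TL_TT {m : ℕ} (_hm : m ≠ 0) {L : Finset ℕ} (hL : ∀ l ∈ L, l.Prime) :
    TL n m L = TT n m L (fun _ i => if 1 ≤ i then 1 else 0) := by
  unfold TL TT
  refine Finset.sum_congr rfl fun a ha => ?_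
  have a0 : a ≠ 0 := (Nat.pos_of_mem_divisors ha).ne'
  by_cases h : ∀ l ∈ L, l ∣ a
  · rw [if_pos h, Finset.prod_eq_one, mul_one]
    intro l hl
    exact if_pos ((dvd_fac (hL l hl) a0).1 (h l hl))
  · rw [if_neg h]
    push Not at h
    obtain ⟨l, hl, hla⟩ := h
    rw [Finset.prod_eq_zero hl, mul_zero]
    exact if_neg fun h1 => hla ((dvd_fac (hL l hl) a0).2 h1)

/-- the local sum with level -/
theorem sum_lev {m l : ℕ} (hl : l ∉ n.primeFactors) (hs : Ps n.primeFactors l = -1) :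
    ∑ i ∈ range (m.factorization l + 1), W0 n m l i * (if 1 ≤ i then 1 else 0) =
      if Odd (m.factorization l) then -1 else 0 := by
  rw [← alt_sum]
  refine Finset.sum_congr rfl fun i _ => ?_
  unfold W0
  rw [if_neg hl, hs, mul_one]

theorem eta_nd {m l : ℕ} (hl : l ∉ n.primeFactors) :
    eta n m l = Ps n.primeFactors l ^ m.factorization l := by
  unfold eta W0
  rw [if_neg hl, mul_one]

/-- **level `l`, inert** -/
theorem TL_inert {m : ℕ} (H : Hm n m) (h : N295.P15.Fd n) {l : ℕ} (hl : l.Prime) (h2 : l ≠ 2)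
    (hln : l ∉ n.primeFactors) (hs : Ps n.primeFactors l = -1) :
    TL n m {l} = -(if Odd (m.factorization l) then Gm n m {l} else 0) := by
  have hL : ∀ p ∈ ({l} : Finset ℕ), p.Prime := fun p hp => by
    rw [Finset.mem_singleton.1 hp]; exact hl
  rw [TL_TT H.m0 hL, TT_eq H h hL (fun h3 => h2 (Finset.mem_singleton.1 h3).symm),
    Finset.prod_singleton, sum_lev hln hs]
  split_ifs
  · ring
  · ring

/-- **level `l`, split** -/
theorem TL_split {m : ℕ} (H : Hm n m) (h : N295.P15.Fd n) {l : ℕ} (hl : l.Prime) (h2 : l ≠ 2)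
    (hln : l ∉ n.primeFactors) (hs : Ps n.primeFactors l = 1) : TL n m {l} = 0 := by
  have hL : ∀ p ∈ ({l} : Finset ℕ), p.Prime := fun p hp => by
    rw [Finset.mem_singleton.1 hp]; exact hl
  have h2L : 2 ∉ ({l} : Finset ℕ) := fun h3 => h2 (Finset.mem_singleton.1 h3).symm
  have h3 := Gm_recip H h hL h2L
  rw [Finset.prod_singleton, eta_nd hln, hs, one_pow] at h3
  have h4 : Gm n m {l} = 0 := by linarith
  rw [TL_TT H.m0 hL, TT_eq H h hL h2L, h4, mul_zero]

/-- **level `l`, ramified** -/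
theorem TL_ram {m : ℕ} (H : Hm n m) (h : N295.P15.Fd n) {l : ℕ} (hl : l.Prime) (h2 : l ≠ 2)
    (hln : l ∈ n.primeFactors) : 2 * TL n m {l} =
      -(if l ∣ m then (1 - hh n (4 * m) l) * Gm n m {l} else 0) := by
  have hL : ∀ p ∈ ({l} : Finset ℕ), p.Prime := fun p hp => by
    rw [Finset.mem_singleton.1 hp]; exact hl
  have h2L : 2 ∉ ({l} : Finset ℕ) := fun h3 => h2 (Finset.mem_singleton.1 h3).symm
  have h3 := Gm_recip H h hL h2L
  rw [Finset.prod_singleton] at h3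
  rw [TL_TT H.m0 hL, TT_eq H h hL h2L, Finset.prod_singleton]
  by_cases hlm : l ∣ m
  · have hv : m.factorization l = 1 := le_antisymm (H.v1 l hln) ((dvd_fac hl H.m0).1 hlm)
    have he : eta n m l = hh n (4 * m) l := by
      unfold eta W0
      rw [if_pos hln, hv, if_pos (le_refl 1), hh_eq' h hln, fac4 H.m0 hl h2, chp4 hl, hv,
        ← h.Ps_p hln]
      ring
    have he2 : eta n m l = W0 n m l 1 := by
      unfold eta
      rw [hv]
    rw [if_pos hlm, hv, Finset.sum_range_succ, Finset.sum_range_one, if_neg (by norm_num),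
      if_pos (le_refl 1), ← he2, ← he]
    linear_combination h3
  · rw [if_neg hlm, Nat.factorization_eq_zero_of_not_dvd hlm, zero_add, Finset.sum_range_one,
      if_neg (by norm_num)]
    ring

/-- **level `l l'`, both inert** -/
theorem TL_two {m : ℕ} (H : Hm n m) (h : N295.P15.Fd n) {l l' : ℕ} (hl : l.Prime) (h2 : l ≠ 2)
    (hln : l ∉ n.primeFactors) (hs : Ps n.primeFactors l = -1) (hl' : l'.Prime) (h2' : l' ≠ 2)
    (hln' : l' ∉ n.primeFactors) (hs' : Ps n.primeFactors l' = -1) (hne : l ≠ l') :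
    TL n m {l, l'} = 0 := by
  have hL : ∀ p ∈ ({l, l'} : Finset ℕ), p.Prime := fun p hp => by
    rcases Finset.mem_insert.1 hp with h3 | h3
    · rw [h3]; exact hl
    · rw [Finset.mem_singleton.1 h3]; exact hl'
  have h2L : 2 ∉ ({l, l'} : Finset ℕ) := fun h3 => by
    rcases Finset.mem_insert.1 h3 with h3 | h3
    · exact h2 h3.symm
    · exact h2' (Finset.mem_singleton.1 h3).symm
  have h3 := Gm_recip H h hL h2L
  have hni : l ∉ ({l'} : Finset ℕ) := fun h4 => hne (Finset.mem_singleton.1 h4)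
  rw [TL_TT H.m0 hL, TT_eq H h hL h2L, Finset.prod_insert hni, Finset.prod_singleton,
    sum_lev hln hs, sum_lev hln' hs']
  rw [Finset.prod_insert hni, Finset.prod_singleton, eta_nd hln, eta_nd hln', hs, hs'] at h3
  by_cases h4 : Odd (m.factorization l)
  · by_cases h5 : Odd (m.factorization l')
    · rw [h4.neg_one_pow, h5.neg_one_pow] at h3
      have h6 : Gm n m {l, l'} = 0 := by linarith
      rw [h6, mul_zero]
    · rw [if_neg h5, mul_zero, zero_mul]
  · rw [if_neg h4, zero_mul, zero_mul]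

/-! ### the crossing number -/

variable {D : ℕ}

/-- the values of the middle coefficient -/
def TD (D : ℕ) : Finset ℤ := (Ioo (-(D : ℤ)) D).filter fun t => t ^ 2 < D ∧ (4 : ℤ) ∣ D - t ^ 2

/-- the product of the outer coefficients -/
def mm (D : ℕ) (t : ℤ) : ℕ := (((D : ℤ) - t ^ 2) / 4).toNat

theorem mm_eq {t : ℤ} (ht : t ∈ TD D) : ((4 * mm D t : ℕ) : ℤ) = D - t ^ 2 ∧ mm D t ≠ 0 := by
  obtain ⟨-, h1, k, hk⟩ := Finset.mem_filter.1 ht
  have h2 : ((D : ℤ) - t ^ 2) / 4 = k := by omega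
  have h3 : ((mm D t : ℕ) : ℤ) = k := by
    unfold mm
    rw [h2]
    omega
  constructor
  · push_cast
    rw [h3, hk]
  · intro h4
    rw [h4] at h3
    push_cast at h3
    omega

theorem Hm_mm (hD : Pool.Agent.N969.RQ.Fd D) (h : N295.P15.Fd n) (hn : n ∣ D) {t : ℤ}
    (ht : t ∈ TD D) : Hm n (mm D t) := by
  obtain ⟨h4, h0⟩ := mm_eq ht
  push_cast at h4
  have key : ∀ p ∈ n.primeFactors, (p : ℤ) ∣ D := fun p hp => by
    exact_mod_cast (pf_dvd hp).trans hn
  refine ⟨h0, ?_, ?_⟩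
  · intro p hp
    have hpp := pf_prime hp
    by_contra hcon
    have h5 : p ^ 2 ∣ mm D t := (hpp.pow_dvd_iff_le_factorization h0).2 (by omega)
    have h6 : ((p : ℤ)) ^ 2 ∣ ((mm D t : ℕ) : ℤ) := by exact_mod_cast h5
    have h7 : (p : ℤ) ∣ t := by
      refine (Nat.prime_iff_prime_int.1 hpp).dvd_of_dvd_pow (n := 2) ?_
      have h8 : t ^ 2 = D - 4 * ((mm D t : ℕ) : ℤ) := by linarith
      rw [h8]
      exact dvd_sub (key p hp) (Dvd.dvd.mul_left ((dvd_pow_self _ two_ne_zero).trans h6) 4)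
    refine not_sq hD hpp (h.ne2 hp) ?_
    have h8 : (D : ℤ) = t ^ 2 + 4 * ((mm D t : ℕ) : ℤ) := by linarith
    rw [h8]
    exact dvd_add (pow_dvd_pow_of_dvd h7 2) (Dvd.dvd.mul_left h6 4)
  · intro p hp hpm
    have hpp := pf_prime hp
    have hodd := h.podd hp
    have h7 : ¬ (p : ℤ) ∣ t := by
      intro h7
      apply hpm
      have h8 : (p : ℤ) ∣ 4 * ((mm D t : ℕ) : ℤ) := by
        rw [h4]
        exact dvd_sub (key p hp) (Dvd.dvd.pow h7 two_ne_zero)
      have h9 : p ∣ 4 * mm D t := by exact_mod_cast h8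
      rcases (Nat.Prime.dvd_mul hpp).1 h9 with h10 | h10
      · exact absurd h10 (nd4 hpp (h.ne2 hp))
      · exact h10
    have h8 : jacobiSym (-((mm D t : ℕ) : ℤ)) p = jacobiSym (2 ^ 2 * (-((mm D t : ℕ) : ℤ))) p := by
      rw [jacobiSym.mul_left, jacobiSym.sq_one' ?_, one_mul]
      have h2 : Nat.Coprime 2 p := by
        rw [Nat.coprime_two_left]
        exact hodd
      exact_mod_cast h2
    rw [h8]
    have h9 : jacobiSym (2 ^ 2 * (-((mm D t : ℕ) : ℤ))) p = jacobiSym (t ^ 2) p := by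
      refine Pool.Agent.N975.PG.jac_congr ?_
      have : 2 ^ 2 * (-((mm D t : ℕ) : ℤ)) - t ^ 2 = -(D : ℤ) := by linarith
      rw [this, dvd_neg]
      exact key p hp
    rw [h9]
    refine jacobiSym.sq_one' ?_
    exact Pool.Agent.N975.PG.jac_cop hpp h7

/-- the form -/
def φ (D : ℕ) (x : (_ : ℤ) × ℕ) : ℤ × ℤ × ℤ := ((x.2 : ℤ), x.1, -((mm D x.1 / x.2 : ℕ) : ℤ))

theorem ps_gch (h : N295.P15.Fd n) (m a : ℕ) (t : ℤ) :
    ps D n ((a : ℤ), t, -((m / a : ℕ) : ℤ)) = gch n m a := by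
  have h2 : ¬ 2 ∣ n := h.nd2
  have he : n.primeFactors.erase 2 = n.primeFactors :=
    Finset.erase_eq_of_notMem fun h3 => h.ne2 h3 rfl
  unfold ps gch
  rw [if_neg h2, one_mul, he]
  refine Finset.prod_congr rfl fun p _ => ?_
  unfold Pool.Agent.N969.P17G.gen
  simp only [Int.natCast_dvd_natCast]

/-- **the crossing number between `∞` and `0`** -/
theorem J_sum (h : N295.P15.Fd n) {N : ℕ} {L : Finset ℕ}
    (hN : ∀ a : ℕ, N ∣ a ↔ ∀ l ∈ L, l ∣ a) : J N one D n 0 1 =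
      ∑ t ∈ TD D, TL n (mm D t) L := by
  classical
  unfold J
  set f : ℤ × ℤ × ℤ → ℤ := fun q => if q.2.1 ^ 2 - 4 * q.1 * q.2.2 = (D : ℤ) ∧ (N : ℤ) ∣ q.1 ∧
    0 < q.1 ∧ q.1 * 0 ^ 2 + q.2.1 * 0 * 1 + q.2.2 * 1 ^ 2 < 0 then one q.2.1 * ps D n q else 0
    with hf
  have hsub : Function.support f ⊆ (((TD D).sigma fun t => (mm D t).divisors).image (φ D) :
      Finset (ℤ × ℤ × ℤ)) := by
    rintro ⟨A, B, C⟩ hq
    have hq' : f (A, B, C) ≠ 0 := hq
    rw [hf] at hq'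
    simp only at hq'
    have h1 : B ^ 2 - 4 * A * C = (D : ℤ) ∧ (N : ℤ) ∣ A ∧
        0 < A ∧ A * 0 ^ 2 + B * 0 * 1 + C * 1 ^ 2 < 0 := by
      by_contra h1
      exact hq' (if_neg h1)
    obtain ⟨h2, -, h4, h5⟩ := h1
    have h5 : C < 0 := by linarith
    have h6 : 0 < A * (-C) := by nlinarith
    have h7 : B ^ 2 < D := by nlinarith
    have hB : B ∈ TD D := by
      refine Finset.mem_filter.2 ⟨Finset.mem_Ioo.2 ?_, h7, ⟨A * (-C), by linarith⟩⟩
      have h8 : B ^ 2 < (D : ℤ) ^ 2 := by nlinarith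
      have h9 := abs_lt_of_sq_lt_sq' h8 (by positivity)
      exact h9
    obtain ⟨h8, h9⟩ := mm_eq hB
    push_cast at h8
    have h10 : ((mm D B : ℕ) : ℤ) = A * (-C) := by linarith
    obtain ⟨a, ha⟩ : ∃ a : ℕ, (a : ℤ) = A := ⟨A.toNat, by omega⟩
    obtain ⟨c, hc⟩ : ∃ c : ℕ, (c : ℤ) = -C := ⟨(-C).toNat, by omega⟩
    have h11 : mm D B = a * c := by
      rw [← ha, ← hc] at h10
      exact_mod_cast h10
    have ha0 : 0 < a := by omega
    rw [Finset.coe_image]
    refine ⟨⟨B, a⟩, ?_, ?_⟩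
    · rw [Finset.mem_coe, Finset.mem_sigma]
      exact ⟨hB, Nat.mem_divisors.2 ⟨⟨c, h11⟩, h9⟩⟩
    · unfold φ
      simp only
      rw [h11, Nat.mul_div_cancel_left _ ha0, ha, hc, neg_neg]
  have hinj : Set.InjOn (φ D) (((TD D).sigma fun t => (mm D t).divisors) :
      Finset ((_ : ℤ) × ℕ)) := by
    rintro ⟨t, a⟩ _ ⟨t', a'⟩ _ hE
    unfold φ at hE
    simp only [Prod.mk.injEq] at hE
    obtain ⟨e1, e2, -⟩ := hE
    have e3 : a = a' := by exact_mod_cast e1
    rw [e2, e3]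
  rw [finsum_eq_sum_of_support_subset f hsub, Finset.sum_image hinj, Finset.sum_sigma]
  refine Finset.sum_congr rfl fun t ht => ?_
  unfold TL
  refine Finset.sum_congr rfl fun a ha => ?_
  obtain ⟨h8, h9⟩ := mm_eq ht
  obtain ⟨c, hc⟩ := Nat.dvd_of_mem_divisors ha
  have ha0 := Nat.pos_of_mem_divisors ha
  have hc0 : 0 < c := Nat.pos_of_ne_zero (by rintro rfl; exact h9 (by rw [hc, mul_zero]))
  have e1 : mm D t / a = c := by rw [hc, Nat.mul_div_cancel_left _ ha0]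
  have hφ : φ D ⟨t, a⟩ = ((a : ℤ), t, -((mm D t / a : ℕ) : ℤ)) := rfl
  rw [hf]
  simp only
  rw [hφ]
  simp only
  rw [ps_gch h]
  have hcond : (t ^ 2 - 4 * (a : ℤ) * -((mm D t / a : ℕ) : ℤ) = (D : ℤ) ∧ (N : ℤ) ∣ (a : ℤ) ∧
      0 < (a : ℤ) ∧ (a : ℤ) * 0 ^ 2 + t * 0 * 1 + -((mm D t / a : ℕ) : ℤ) * 1 ^ 2 < 0) ↔
      ∀ l ∈ L, l ∣ a := by
    rw [← hN, Int.natCast_dvd_natCast, e1]
    constructor
    · exact fun h => h.2.1
    · intro h10
      refine ⟨?_, h10, by exact_mod_cast ha0, ?_⟩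
      · rw [hc] at h8
        push_cast at h8
        linarith
      · have : (0 : ℤ) < c := by exact_mod_cast hc0
        linarith
  by_cases h11 : ∀ l ∈ L, l ∣ a
  · rw [if_pos (hcond.2 h11), if_pos h11]
    unfold one
    rw [one_mul]
  · rw [if_neg (fun h => h11 (hcond.1 h)), if_neg h11]

end

end Pool.Agent.N971.RQ
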