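import Pool.Agent.N969.RQ.Defs
import Pool.Agent.N975.RQ.Gn

/-!
# RQ: the genus characters of a fundamental discriminant
-/

set_option autoImplicit false

namespace Pool.Agent.N971.RQ

open Finset
open Pool.Agent.N969.RQ (Fd Un ud sgd ps)
open Pool.Agent.N969.P17G (gen starP)
open Pool.Agent.N969.P15 (c2)
open Pool.Agent.N975.RQ (Gc C2 g2 g2_val odd_coef gc_g2 gc_gn)
open Pool.Agent.N975.PG (gp gp_val gp_act gp_neg)
open Pool.Agent.N975.Sym (ev act ev_act)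

noncomputable section

/-- the quadratic character of `d` -/
def chps (D d : ℕ) (n : ℤ) : ℤ :=
  (if 2 ∣ d then c2 (3 * D) n else 1) * ∏ p ∈ d.primeFactors.erase 2, jacobiSym n p

variable {D d : ℕ}

theorem c2_of (hD : Fd D) (h2 : 2 ∣ D) : C2 (3 * D) (D : ℤ) := by
  obtain ⟨-, h | ⟨M, hM, -, h4⟩⟩ := hD
  · omega
  · unfold C2
    rcases h4 with h4 | h4 <;> omega

theorem not_sq (hD : Fd D) {p : ℕ} (hp : p.Prime) (hp2 : p ≠ 2) : ¬ ((p : ℤ) ^ 2 ∣ (D : ℤ)) := by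
  intro h
  have h0 : p * p ∣ D := by
    rw [← pow_two]
    exact_mod_cast h
  obtain ⟨-, h1 | ⟨M, hM, h1, -⟩⟩ := hD
  · exact hp.one_lt.ne' (Nat.isUnit_iff.1 (h1.1 p h0))
  · have h7 : Nat.Coprime (p * p) 4 := by
      have : Nat.Coprime p 2 := (Nat.coprime_primes hp Nat.prime_two).2 hp2
      have h8 : Nat.Coprime (p * p) 2 := Nat.Coprime.mul_left this this
      exact Nat.Coprime.mul_right h8 h8
    rw [hM] at h0
    exact hp.one_lt.ne' (Nat.isUnit_iff.1 (h1 p (h7.dvd_of_dvd_mul_left h0)))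

/-- one of the outer coefficients is prime to `p` -/
theorem coef_odd (hD : Fd D) {p : ℕ} (hp : p.Prime) (hp2 : p ≠ 2) (hpD : p ∣ D)
    {q : ℤ × ℤ × ℤ} (hq : q.2.1 ^ 2 - 4 * q.1 * q.2.2 = D) :
    ¬ (p : ℤ) ∣ q.1 ∨ ¬ (p : ℤ) ∣ q.2.2 := by
  by_contra hcon
  rw [not_or, not_not, not_not] at hcon
  obtain ⟨⟨a, ha⟩, ⟨c, hc⟩⟩ := hcon
  apply not_sq hD hp hp2
  have hpp : Prime (p : ℤ) := Nat.prime_iff_prime_int.1 hp
  have h1 : (p : ℤ) ∣ q.2.1 := by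
    apply hpp.dvd_of_dvd_pow (n := 2)
    obtain ⟨k, hk⟩ : (p : ℤ) ∣ D := by exact_mod_cast hpD
    exact ⟨k + 4 * a * q.2.2, by rw [hk, ha] at hq; linear_combination hq⟩
  obtain ⟨b, hb⟩ := h1
  exact ⟨b ^ 2 - 4 * a * c, by rw [← hq, ha, hc, hb]; ring⟩

theorem gp_rel (hD : Fd D) {p : ℕ} (hp : p.Prime) (hp2 : p ≠ 2) (hpD : p ∣ D) {Q : ℤ}
    (hQ : ¬ (p : ℤ) ∣ Q) {q q' : ℤ × ℤ × ℤ} (hq : q.2.1 ^ 2 - 4 * q.1 * q.2.2 = D)
    (hq' : q'.2.1 ^ 2 - 4 * q'.1 * q'.2.2 = D) (h1 : ∃ x y, ev q x y = Q * q'.1)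
    (h2 : ∃ x y, ev q x y = Q * q'.2.2) : gp p q = jacobiSym Q p * gp p q' := by
  have hpp : Prime (p : ℤ) := Nat.prime_iff_prime_int.1 hp
  have hdv : (p : ℤ) ∣ q.2.1 ^ 2 - 4 * q.1 * q.2.2 := by rw [hq]; exact_mod_cast hpD
  by_cases h3 : (p : ℤ) ∣ q'.1
  · have h4 : ¬ (p : ℤ) ∣ q'.2.2 := by
      rcases coef_odd hD hp hp2 hpD hq' with h | h
      · exact absurd h3 h
      · exact h
    obtain ⟨x, y, h⟩ := h2
    have h5 : ¬ (p : ℤ) ∣ ev q x y := by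
      rw [h]
      intro h6
      rcases hpp.dvd_or_dvd h6 with h7 | h7
      · exact hQ h7
      · exact h4 h7
    rw [← gp_val hp hp2 hdv x y h5, h, jacobiSym.mul_left]
    unfold gp
    rw [if_pos h3]
  · obtain ⟨x, y, h⟩ := h1
    have h5 : ¬ (p : ℤ) ∣ ev q x y := by
      rw [h]
      intro h6
      rcases hpp.dvd_or_dvd h6 with h7 | h7
      · exact hQ h7
      · exact h3 h7
    rw [← gp_val hp hp2 hdv x y h5, h, jacobiSym.mul_left]
    unfold gp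
    rw [if_neg h3]

theorem g2_rel (hD : Fd D) (h2D : 2 ∣ D) {Q : ℤ}
    (hQ : ¬ (2 : ℤ) ∣ Q) {q q' : ℤ × ℤ × ℤ} (hq : q.2.1 ^ 2 - 4 * q.1 * q.2.2 = D)
    (hq' : q'.2.1 ^ 2 - 4 * q'.1 * q'.2.2 = D) (h1 : ∃ x y, ev q x y = Q * q'.1)
    (h2 : ∃ x y, ev q x y = Q * q'.2.2) : g2 (3 * D) q = c2 (3 * D) Q * g2 (3 * D) q' := by
  have hC := c2_of hD h2D
  by_cases h3 : (2 : ℤ) ∣ q'.1
  · have h4 : ¬ (2 : ℤ) ∣ q'.2.2 := by
      rcases odd_coef hC hq' with h | h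
      · exact absurd h3 h
      · exact h
    obtain ⟨x, y, h⟩ := h2
    have h5 : ¬ (2 : ℤ) ∣ ev q x y := by
      rw [h]
      intro h6
      rcases Int.prime_two.dvd_or_dvd h6 with h7 | h7
      · exact hQ h7
      · exact h4 h7
    rw [← g2_val hC hq x y h5, h, Pool.Agent.N975.ChE.c2_mul]
    unfold g2
    rw [if_pos h3]
  · obtain ⟨x, y, h⟩ := h1
    have h5 : ¬ (2 : ℤ) ∣ ev q x y := by
      rw [h]
      intro h6
      rcases Int.prime_two.dvd_or_dvd h6 with h7 | h7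
      · exact hQ h7
      · exact h3 h7
    rw [← g2_val hC hq x y h5, h, Pool.Agent.N975.ChE.c2_mul]
    unfold g2
    rw [if_neg h3]

/-- **the genus character under a similitude of norm `Q`** -/
theorem ps_rel (hD : Fd D) (hd : d ∣ D) {Q : ℤ} (hQ : ∀ p ∈ d.primeFactors, ¬ (p : ℤ) ∣ Q)
    {q q' : ℤ × ℤ × ℤ} (hq : q.2.1 ^ 2 - 4 * q.1 * q.2.2 = D)
    (hq' : q'.2.1 ^ 2 - 4 * q'.1 * q'.2.2 = D) (h1 : ∃ x y, ev q x y = Q * q'.1)
    (h2 : ∃ x y, ev q x y = Q * q'.2.2) : ps D d q = chps D d Q * ps D d q' := by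
  have hD0 : D ≠ 0 := by have := hD.1; omega
  have hd0 : d ≠ 0 := fun h => hD0 (by rw [h] at hd; exact zero_dvd_iff.1 hd)
  have e1 : (if 2 ∣ d then g2 (3 * D) q else 1) =
      (if 2 ∣ d then c2 (3 * D) Q else 1) * (if 2 ∣ d then g2 (3 * D) q' else 1) := by
    by_cases h : 2 ∣ d
    · rw [if_pos h, if_pos h, if_pos h]
      exact g2_rel hD (h.trans hd)
        (by exact_mod_cast hQ 2 (Nat.mem_primeFactors.2 ⟨Nat.prime_two, h, hd0⟩)) hq hq' h1 h2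
    · rw [if_neg h, if_neg h, if_neg h, one_mul]
  have e2 : ∏ p ∈ d.primeFactors.erase 2, gp p q =
      (∏ p ∈ d.primeFactors.erase 2, jacobiSym Q p) * ∏ p ∈ d.primeFactors.erase 2, gp p q' := by
    rw [← Finset.prod_mul_distrib]
    refine Finset.prod_congr rfl fun p hp => ?_
    obtain ⟨hp2, hp⟩ := Finset.mem_erase.1 hp
    exact gp_rel hD (Nat.prime_of_mem_primeFactors hp) hp2
      ((Nat.dvd_of_mem_primeFactors hp).trans hd) (hQ p hp) hq hq' h1 h2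
  have e3 : ∀ r : ℤ × ℤ × ℤ, ps D d r =
      (if 2 ∣ d then g2 (3 * D) r else 1) * ∏ p ∈ d.primeFactors.erase 2, gp p r := fun _ => rfl
  rw [e3, e3, e1, e2]
  unfold chps
  ring

/-- the genus character is a genus character -/
theorem gc_ps (hD : Fd D) (hd : d ∣ D) : Gc (D : ℤ) (ps D d) (chps D d (-1)) where
  inv := by
    intro a b c e hdet q hq
    have hD0 : D ≠ 0 := by have := hD.1; omega
    have hd0 : d ≠ 0 := fun h => hD0 (by rw [h] at hd; exact zero_dvd_iff.1 hd)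
    have e3 : ∀ r : ℤ × ℤ × ℤ, ps D d r =
        (if 2 ∣ d then g2 (3 * D) r else 1) * ∏ p ∈ d.primeFactors.erase 2, gp p r := fun _ => rfl
    rw [e3, e3]
    congr 1
    · by_cases h : 2 ∣ d
      · rw [if_pos h, if_pos h]
        exact (gc_g2 (c2_of hD (h.trans hd))).inv hdet q hq
      · rw [if_neg h, if_neg h]
    · refine Finset.prod_congr rfl fun p hp => ?_
      obtain ⟨hp2, hp⟩ := Finset.mem_erase.1 hp
      have hpD : (p : ℤ) ∣ (D : ℤ) := by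
        exact_mod_cast (Nat.dvd_of_mem_primeFactors hp).trans hd
      exact gp_act (Nat.prime_of_mem_primeFactors hp) hp2 (by rw [hq]; exact hpD) hdet
  neg := by
    intro A B C hq
    have e3 : ∀ r : ℤ × ℤ × ℤ, ps D d r =
        (if 2 ∣ d then g2 (3 * D) r else 1) * ∏ p ∈ d.primeFactors.erase 2, gp p r := fun _ => rfl
    rw [e3, e3]
    unfold chps
    have e1 : (if 2 ∣ d then g2 (3 * D) (-A, -B, -C) else 1) =
        (if 2 ∣ d then c2 (3 * D) (-1) else 1) * (if 2 ∣ d then g2 (3 * D) (A, B, C) else 1) := by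
      by_cases h : 2 ∣ d
      · rw [if_pos h, if_pos h, if_pos h]
        exact (gc_g2 (c2_of hD (h.trans hd))).neg A B C hq
      · rw [if_neg h, if_neg h, if_neg h, one_mul]
    have e2 : ∏ p ∈ d.primeFactors.erase 2, gp p (-A, -B, -C) =
        (∏ p ∈ d.primeFactors.erase 2, jacobiSym (-1) p) *
          ∏ p ∈ d.primeFactors.erase 2, gp p (A, B, C) := by
      rw [← Finset.prod_mul_distrib]
      exact Finset.prod_congr rfl fun p _ => gp_neg p A B C (-B)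
    rw [e1, e2]
    ring
  rfl := by
    intro A B C _
    rfl

end

end Pool.Agent.N971.RQ
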