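import Pool.Agent.N295.P15.C2

/-!
# RQ: the divisor sums of a genus character, as products of local sums
-/

set_option autoImplicit false

namespace Pool.Agent.N971.RQ

open Finset
open Pool.Agent.Z700 (hh fac)
open Pool.Agent.Y574.Z7 (chp chp_mul chp_one chp_self chp_nd chp_sq chp_pm jac_eq sum_local two_pt
  one_sum alt_sum dvd_fac nd4 fac_D mem_D chp_D jac_prod chp_prod)
open Pool.Agent.N295.P15 (Fd Ps Ps_one Ps_mul Ps_fac Ps_pm pf_prime pf_dvd fac4 chp4 pf_four fac42
  alt_zero)
open Pool.Agent.N969.P15 (tw ep2)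

noncomputable section

variable {n : ℕ}

theorem hh_eq' (h : Fd n) {D l : ℕ} (hl : l ∈ n.primeFactors) :
    hh n D l = ZMod.χ₄ l * (chp l n) ^ D.factorization l * chp l D := by
  have hp := pf_prime hl
  have hodd := h.podd hl
  have hsq : chp l n * chp l n = 1 := chp_sq hp h.n0
  have e1 : jacobiSym ((n / l : ℕ) : ℤ) l = chp l n := by
    unfold chp
    rw [h.fac1 hl, pow_one]
  unfold hh
  rw [jacobiSym.neg _ hodd, jacobiSym.neg _ hodd, Nat.cast_mul, jacobiSym.mul_left, e1]
  have e2 : jacobiSym ((D / l ^ D.factorization l : ℕ) : ℤ) l = chp l D := rfl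
  rw [e2]
  split_ifs with h
  · obtain ⟨k, hk⟩ := h
    rw [hk, ← two_mul, pow_mul, sq, hsq, one_pow]
    ring
  · rw [Nat.not_even_iff_odd] at h
    obtain ⟨k, hk⟩ := h
    rw [hk, pow_succ, pow_mul, sq, hsq, one_pow]
    ring

/-- the genus character of the form with outer coefficients `a`, `-m / a` -/
def gch (n m a : ℕ) : ℤ := ∏ p ∈ n.primeFactors,
  if p ∣ a then jacobiSym (-((m / a : ℕ) : ℤ)) p else jacobiSym a p

/-- the local weight -/
def W0 (n m l i : ℕ) : ℤ := Ps n.primeFactors l ^ i *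
  (if l ∈ n.primeFactors then (if 1 ≤ i then ZMod.χ₄ l * chp l m else 1) else 1)

/-- the hypotheses on `m` -/
structure Hm (n m : ℕ) : Prop where
  m0 : m ≠ 0
  v1 : ∀ p ∈ n.primeFactors, m.factorization p ≤ 1
  sg : ∀ p ∈ n.primeFactors, ¬ p ∣ m → jacobiSym (-(m : ℤ)) p = 1

theorem gp_eq {m a p : ℕ} (H : Hm n m) (h : Fd n) (hp : p ∈ n.primeFactors) (ha : a ∣ m) :
    (if p ∣ a then jacobiSym (-((m / a : ℕ) : ℤ)) p else jacobiSym a p) =
      chp p a * (if 1 ≤ a.factorization p then ZMod.χ₄ p * chp p m else 1) := by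
  have hpp := pf_prime hp
  obtain ⟨y, rfl⟩ := ha
  have m0 := H.m0
  have a0 : a ≠ 0 := left_ne_zero_of_mul m0
  have y0 : y ≠ 0 := right_ne_zero_of_mul m0
  have v1 := H.v1 p hp
  rw [Nat.factorization_mul a0 y0, Finsupp.add_apply] at v1
  rw [Nat.mul_div_cancel_left _ (Nat.pos_of_ne_zero a0)]
  by_cases h1 : p ∣ a
  · have h2 := (dvd_fac hpp a0).1 h1
    rw [if_pos h1, if_pos h2, jacobiSym.neg _ (h.podd hp)]
    have h3 : ¬ p ∣ y := by
      rw [dvd_fac hpp y0]
      omega
    rw [← chp_nd h3, chp_mul]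
    have s1 := chp_sq hpp a0
    linear_combination (-(ZMod.χ₄ p * chp p y)) * s1
  · have h2 : ¬ 1 ≤ a.factorization p := fun h2 => h1 ((dvd_fac hpp a0).2 h2)
    rw [if_neg h1, if_neg h2, mul_one, chp_nd h1]

/-- the primes -/
def QQ (n m : ℕ) (L : Finset ℕ) : Finset ℕ := insert 2 (L ∪ (n.primeFactors ∪ m.primeFactors))

theorem QQ_prime {m : ℕ} {L : Finset ℕ} (hL : ∀ l ∈ L, l.Prime) : ∀ l ∈ QQ n m L, l.Prime := by
  intro l hl
  unfold QQ at hl
  rcases Finset.mem_insert.1 hl with h | h
  · rw [h]; exact Nat.prime_two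
  rcases Finset.mem_union.1 h with h | h
  · exact hL l h
  rcases Finset.mem_union.1 h with h | h
  · exact pf_prime h
  · exact pf_prime h

theorem gch_eq {m a : ℕ} (H : Hm n m) (h : Fd n) (ha : a ∣ m) (L : Finset ℕ) :
    gch n m a = ∏ l ∈ QQ n m L, W0 n m l (a.factorization l) := by
  have a0 : a ≠ 0 := fun h0 => H.m0 (by rw [h0] at ha; exact zero_dvd_iff.1 ha)
  have hsub : n.primeFactors ⊆ QQ n m L := fun l hl =>
    Finset.mem_insert_of_mem (Finset.mem_union_right _ (Finset.mem_union_left _ hl))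
  have hsub2 : a.primeFactors ⊆ QQ n m L := fun l hl =>
    Finset.mem_insert_of_mem (Finset.mem_union_right _ (Finset.mem_union_right _
      (Nat.primeFactors_mono ha H.m0 hl)))
  unfold W0
  rw [Finset.prod_mul_distrib, ← Ps_fac _ _ a a0 hsub2, Finset.prod_ite_mem,
    Finset.inter_eq_right.2 hsub]
  unfold gch Ps
  rw [← Finset.prod_mul_distrib]
  exact Finset.prod_congr rfl fun p hp => gp_eq H h hp ha

/-- the weighted divisor sum -/
def TT (n m : ℕ) (L : Finset ℕ) (c : ℕ → ℕ → ℤ) : ℤ :=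
  ∑ a ∈ m.divisors, gch n m a * ∏ l ∈ L, c l (a.factorization l)

/-- **the divisor sum is a product of local sums** -/
theorem TT_prod {m : ℕ} (H : Hm n m) (h : Fd n) {L : Finset ℕ} (hL : ∀ l ∈ L, l.Prime)
    (c : ℕ → ℕ → ℤ) : TT n m L c = ∏ l ∈ QQ n m L,
      ∑ i ∈ range (m.factorization l + 1), W0 n m l i * (if l ∈ L then c l i else 1) := by
  classical
  have hs := sum_local (fun l i _ => W0 n m l i * (if l ∈ L then c l i else 1)) (QQ n m L)
    (QQ_prime hL) m 1 H.m0 one_ne_zero (fun l hl hd =>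
      Finset.mem_insert_of_mem (Finset.mem_union_right _ (Finset.mem_union_right _
        (Nat.mem_primeFactors.2 ⟨hl, hd, H.m0⟩)))) (fun l hl hd =>
      absurd (Nat.dvd_one.1 hd) hl.one_lt.ne')
  simp only [Nat.divisors_one, Finset.sum_singleton, Nat.factorization_one, Finsupp.coe_zero,
    Pi.zero_apply, zero_add, Finset.sum_range_one] at hs
  rw [← hs]
  unfold TT
  refine Finset.sum_congr rfl fun a ha => ?_
  rw [Finset.prod_mul_distrib, ← gch_eq H h (Nat.dvd_of_mem_divisors ha) L, Finset.prod_ite_mem,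
    Finset.inter_eq_right.2]
  exact fun l hl => Finset.mem_insert_of_mem (Finset.mem_union_left _ hl)

/-- the product away from `L` -/
def Gm (n m : ℕ) (L : Finset ℕ) : ℤ :=
  tw n (4 * m) * ∏ l ∈ ((4 * m).primeFactors.erase 2) \ L, fac n (4 * m) l

theorem loc_two {m : ℕ} (H : Hm n m) (h : Fd n) : ∑ i ∈ range (m.factorization 2 + 1), W0 n m 2 i =
    tw n (4 * m) := by
  have h2 : (2 : ℕ) ∉ n.primeFactors := fun h1 => h.ne2 h1 rfl
  unfold W0 tw
  rw [fac42 H.m0]
  refine Finset.sum_congr rfl fun i _ => ?_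
  rw [if_neg h2, h.Ps_two, mul_one]
  rfl

theorem loc_gen {m l : ℕ} (H : Hm n m) (h : Fd n) (hl : l.Prime) (h2 : l ≠ 2) :
    ∑ i ∈ range (m.factorization l + 1), W0 n m l i =
      if l ∈ (4 * m).primeFactors then fac n (4 * m) l else 1 := by
  have hmem : l ∈ (4 * m).primeFactors ↔ l ∣ m := by
    rw [Nat.mem_primeFactors]
    constructor
    · rintro ⟨h3, h4, _⟩
      rcases (Nat.Prime.dvd_mul h3).1 h4 with h5 | h5
      · exact absurd h5 (nd4 h3 h2)
      · exact h5
    · intro h3
      exact ⟨hl, h3.mul_left 4, mul_ne_zero (by norm_num) H.m0⟩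
  by_cases hlm : l ∣ m
  · rw [if_pos (hmem.2 hlm)]
    unfold fac
    by_cases hln : l ∈ n.primeFactors
    · rw [if_pos (pf_dvd hln), hh_eq' h hln, fac4 H.m0 hl h2, chp4 hl]
      have hv : m.factorization l = 1 :=
        le_antisymm (H.v1 l hln) ((dvd_fac hl H.m0).1 hlm)
      rw [hv, Finset.sum_range_succ, Finset.sum_range_one]
      unfold W0
      rw [if_pos hln, if_pos hln, if_neg (by norm_num), if_pos (le_refl 1), pow_zero, pow_one,
        ← h.Ps_p hln, pow_one]
      ring
    · rw [if_neg (fun h3 => hln ((h.mem hl).2 h3)), fac4 H.m0 hl h2, ← h.Ps_l hl h2 hln]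
      refine Finset.sum_congr rfl fun i _ => ?_
      unfold W0
      rw [if_neg hln, mul_one]
  · rw [if_neg (fun h3 => hlm (hmem.1 h3)), Nat.factorization_eq_zero_of_not_dvd hlm, zero_add,
      Finset.sum_range_one]
    unfold W0
    rw [pow_zero, one_mul]
    split_ifs with h3 h4
    · exact absurd h4 (by norm_num)
    · rfl
    · rfl

/-- **the product formula with the primes of `L` split off** -/
theorem TT_eq {m : ℕ} (H : Hm n m) (h : Fd n) {L : Finset ℕ} (hL : ∀ l ∈ L, l.Prime)
    (h2L : 2 ∉ L) (c : ℕ → ℕ → ℤ) : TT n m L c =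
      (∏ l ∈ L, ∑ i ∈ range (m.factorization l + 1), W0 n m l i * c l i) * Gm n m L := by
  classical
  rw [TT_prod H h hL c]
  have hLQ : L ⊆ QQ n m L := fun l hl =>
    Finset.mem_insert_of_mem (Finset.mem_union_left _ hl)
  rw [← Finset.prod_sdiff hLQ, mul_comm]
  congr 1
  · refine Finset.prod_congr rfl fun l hl => Finset.sum_congr rfl fun i _ => ?_
    rw [if_pos hl]
  · have h2Q : 2 ∈ QQ n m L \ L := Finset.mem_sdiff.2 ⟨Finset.mem_insert_self _ _, h2L⟩
    rw [← Finset.mul_prod_erase _ _ h2Q]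
    unfold Gm
    congr 1
    · rw [← loc_two H h]
      refine Finset.sum_congr rfl fun i _ => ?_
      rw [if_neg h2L, mul_one]
    · have e1 : ∀ l ∈ (QQ n m L \ L).erase 2, ∑ i ∈ range (m.factorization l + 1),
          W0 n m l i * (if l ∈ L then c l i else 1) =
          if l ∈ (4 * m).primeFactors then fac n (4 * m) l else 1 := by
        intro l hl
        obtain ⟨hl2, hl3⟩ := Finset.mem_erase.1 hl
        obtain ⟨hl4, hl5⟩ := Finset.mem_sdiff.1 hl3
        rw [← loc_gen H h (QQ_prime hL l hl4) hl2]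
        refine Finset.sum_congr rfl fun i _ => ?_
        rw [if_neg hl5, mul_one]
      rw [Finset.prod_congr rfl e1, Finset.prod_ite_mem]
      refine Finset.prod_congr ?_ fun _ _ => rfl
      ext l
      simp only [Finset.mem_inter, Finset.mem_erase, Finset.mem_sdiff]
      constructor
      · rintro ⟨⟨k1, -, k3⟩, k4⟩
        exact ⟨⟨k1, k4⟩, k3⟩
      · rintro ⟨⟨k1, k2⟩, k3⟩
        refine ⟨⟨k1, ?_, k3⟩, k2⟩
        have k5 : l ∈ m.primeFactors := by
          have k6 := Nat.mem_primeFactors.1 k2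
          rcases (Nat.Prime.dvd_mul k6.1).1 k6.2.1 with h5 | h5
          · exact absurd h5 (nd4 k6.1 k1)
          · exact Nat.mem_primeFactors.2 ⟨k6.1, h5, H.m0⟩
        exact Finset.mem_insert_of_mem (Finset.mem_union_right _ (Finset.mem_union_right _ k5))

/-- the antisymmetry of the genus character of a negative discriminant -/
theorem gch_swap {m a : ℕ} (H : Hm n m) (h : Fd n) (ha : a ∣ m) :
    gch n m (m / a) = - gch n m a := by
  obtain ⟨y, rfl⟩ := ha
  have m0 := H.m0
  have a0 : a ≠ 0 := left_ne_zero_of_mul m0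
  have y0 : y ≠ 0 := right_ne_zero_of_mul m0
  have e1 : a * y / a = y := Nat.mul_div_cancel_left _ (Nat.pos_of_ne_zero a0)
  have e2 : a * y / y = a := Nat.mul_div_cancel _ (Nat.pos_of_ne_zero y0)
  rw [e1]
  unfold gch
  rw [e1, e2]
  have key : ∀ p ∈ n.primeFactors, (if p ∣ y then jacobiSym (-(a : ℤ)) p else jacobiSym y p) =
      ZMod.χ₄ p * (if p ∣ a then jacobiSym (-(y : ℤ)) p else jacobiSym a p) := by
    intro p hp
    have hpp := pf_prime hp
    have hodd := h.podd hp
    have v1 := H.v1 p hp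
    rw [Nat.factorization_mul a0 y0, Finsupp.add_apply] at v1
    have hχ : ZMod.χ₄ (p : ZMod 4) * ZMod.χ₄ (p : ZMod 4) = 1 := by
      have h4 : p % 4 = 1 ∨ p % 4 = 3 := by
        rw [Nat.odd_iff] at hodd
        omega
      rcases h4 with h4 | h4
      · rw [ZMod.χ₄_nat_one_mod_four h4]; norm_num
      · rw [ZMod.χ₄_nat_three_mod_four h4]; norm_num
    by_cases hpa : p ∣ a
    · have hpy : ¬ p ∣ y := by
        rw [dvd_fac hpp y0]
        have := (dvd_fac hpp a0).1 hpa
        omega
      rw [if_neg hpy, if_pos hpa, jacobiSym.neg _ hodd, ← mul_assoc, hχ, one_mul]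
    · rw [if_neg hpa]
      by_cases hpy : p ∣ y
      · rw [if_pos hpy, jacobiSym.neg _ hodd]
      · rw [if_neg hpy]
        have hpm : ¬ p ∣ a * y := fun hd => by
          rcases (Nat.Prime.dvd_mul hpp).1 hd with h3 | h3
          · exact hpa h3
          · exact hpy h3
        have h3 := H.sg p hp hpm
        rw [jacobiSym.neg _ hodd] at h3
        push_cast at h3
        rw [jacobiSym.mul_left] at h3
        have s1 := chp_sq hpp a0
        rw [chp_nd hpa] at s1
        linear_combination (ZMod.χ₄ p * jacobiSym a p) * h3 -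
          (jacobiSym y p * jacobiSym a p * jacobiSym a p) * hχ - (jacobiSym y p) * s1
  rw [Finset.prod_congr rfl key, Finset.prod_mul_distrib]
  have e3 : ∏ p ∈ n.primeFactors, ZMod.χ₄ (p : ZMod 4) = -1 := by
    have h4 : ZMod.χ₄ ((∏ p ∈ n.primeFactors, p : ℕ) : ZMod 4) = -1 := by
      rw [h.prod]
      exact ZMod.χ₄_nat_three_mod_four h.m4
    rw [← h4, Nat.cast_prod, map_prod]
  rw [e3]
  ring

/-- the local sign of the antisymmetry -/
def eta (n m l : ℕ) : ℤ := W0 n m l (m.factorization l)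

/-- **reciprocity** -/
theorem Gm_recip {m : ℕ} (H : Hm n m) (h : Fd n) {L : Finset ℕ} (hL : ∀ l ∈ L, l.Prime)
    (h2L : 2 ∉ L) : ((∏ l ∈ L, eta n m l) + 1) * Gm n m L = 0 := by
  classical
  have e1 := TT_eq H h hL h2L (fun l i => if i = m.factorization l then 1 else 0)
  have e2 := TT_eq H h hL h2L (fun _ i => if i = 0 then 1 else 0)
  have s1 : ∀ l ∈ L, ∑ i ∈ range (m.factorization l + 1), W0 n m l i *
      (if i = m.factorization l then 1 else 0) = eta n m l := by
    intro l _
    rw [Finset.sum_eq_single (m.factorization l)]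
    · rw [if_pos rfl, mul_one]
      rfl
    · intro i _ hi
      rw [if_neg hi, mul_zero]
    · intro hi
      exact absurd (Finset.self_mem_range_succ _) hi
  have s2 : ∀ l ∈ L, ∑ i ∈ range (m.factorization l + 1), W0 n m l i *
      (if i = 0 then 1 else 0) = 1 := by
    intro l _
    rw [Finset.sum_eq_single 0]
    · rw [if_pos rfl, mul_one]
      unfold W0
      rw [pow_zero, one_mul]
      split_ifs with h3 h4
      · exact absurd h4 (by norm_num)
      · rfl
      · rfl
    · intro i _ hi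
      rw [if_neg hi, mul_zero]
    · intro hi
      exact absurd (Finset.mem_range.2 (Nat.succ_pos _)) hi
  rw [Finset.prod_congr rfl s1] at e1
  rw [Finset.prod_congr rfl s2, Finset.prod_const_one, one_mul] at e2
  have e3 : TT n m L (fun l i => if i = m.factorization l then 1 else 0) =
      - TT n m L (fun _ i => if i = 0 then 1 else 0) := by
    unfold TT
    rw [← Finset.sum_neg_distrib, ← Nat.sum_div_divisors m]
    refine Finset.sum_congr rfl fun a ha => ?_
    have ha' := Nat.dvd_of_mem_divisors ha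
    rw [gch_swap H h ha', neg_mul]
    congr 2
    refine Finset.prod_congr rfl fun l _ => ?_
    have h3 : (m / a).factorization l + a.factorization l = m.factorization l := by
      obtain ⟨y, hy⟩ := ha'
      have m0 := H.m0
      rw [hy] at m0
      have a0 : a ≠ 0 := left_ne_zero_of_mul m0
      have y0 : y ≠ 0 := right_ne_zero_of_mul m0
      rw [hy, Nat.mul_div_cancel_left _ (Nat.pos_of_ne_zero a0), Nat.factorization_mul a0 y0,
        Finsupp.add_apply, add_comm]
    beta_reduce
    by_cases h4 : a.factorization l = 0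
    · rw [if_pos h4, if_pos (by omega)]
    · rw [if_neg h4, if_neg (by omega)]
  rw [e1, e2] at e3
  linarith

end

end Pool.Agent.N971.RQ
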