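import Pool.Agent.N971.RQ.Rel

/-!
# RQ: the relations at level `15`
-/

set_option autoImplicit false

namespace Pool.Agent.N971.RQ

open Finset
open Pool.Agent.N969.RQ (Fd Un ud sgd ps J o3 o5 o7 one)
open Pool.Agent.N975.RQ (Gc Wt Par U X kw wt_kw X_kw par_kw U_fin X_inf X_smul X_neg X_mod X_add_mul)
open Pool.Agent.N975.Sym (ev act ev_act ev10)

noncomputable section

/-! ### residues -/

theorem dz (n : ℕ) (x : ℤ) : ((n : ℕ) : ℤ) ∣ x ↔ (x : ZMod n) = 0 :=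
  (ZMod.intCast_zmod_eq_zero_iff_dvd x n).symm

theorem dz3 (x : ℤ) : (3 : ℤ) ∣ x ↔ (x : ZMod 3) = 0 := dz 3 x

theorem dz5 (x : ℤ) : (5 : ℤ) ∣ x ↔ (x : ZMod 5) = 0 := dz 5 x

def f3 (x : ZMod 3) : ℤ := if x = 1 then 1 else if x = 2 then -1 else 0

def f5 (x : ZMod 5) : ℤ := if x = 0 then 0 else if x = 1 ∨ x = 2 then 1 else -1

theorem o3_eq (b : ℤ) : o3 b = f3 b := by
  unfold o3 f3
  rw [jacobiSym.mod_left]
  have h : b % 3 = 0 ∨ b % 3 = 1 ∨ b % 3 = 2 := by omega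
  have e : ∀ r : ℤ, b % 3 = r → (b : ZMod 3) = (r : ZMod 3) := by
    intro r hr
    rw [ZMod.intCast_eq_intCast_iff_dvd_sub]
    exact ⟨-(b / 3), by push_cast; omega⟩
  have j0 : jacobiSym 0 3 = 0 := by norm_num
  have j1 : jacobiSym 1 3 = 1 := by norm_num
  have j2 : jacobiSym 2 3 = -1 := by norm_num
  rcases h with h | h | h
  · rw [e 0 h]
    push_cast
    rw [h, j0]
    decide
  · rw [e 1 h]
    push_cast
    rw [h, j1]
    decide
  · rw [e 2 h]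
    push_cast
    rw [h, j2]
    decide

theorem o5_eq (b : ℤ) : o5 b = f5 b := by
  unfold o5 f5
  have h : b % 5 = 0 ∨ b % 5 = 1 ∨ b % 5 = 2 ∨ b % 5 = 3 ∨ b % 5 = 4 := by omega
  have e : ∀ r : ℤ, b % 5 = r → (b : ZMod 5) = (r : ZMod 5) := by
    intro r hr
    rw [ZMod.intCast_eq_intCast_iff_dvd_sub]
    exact ⟨-(b / 5), by push_cast; omega⟩
  rcases h with h | h | h | h | h
  · rw [e 0 h, h]
    decide
  · rw [e 1 h, h]
    decide
  · rw [e 2 h, h]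
    decide
  · rw [e 3 h, h]
    decide
  · rw [e 4 h, h]
    decide

theorem k31 : ∀ a b c : ZMod 3, b ^ 2 - 4 * a * c = 1 →
    (if c = 0 then (1 : ℤ) else 0) + (if a - b + c = 0 then 1 else 0) +
      (if a * 4 - b * 2 + c = 0 then 1 else 0) = if a = 0 then 1 else 2 := by
  decide

theorem k31w : ∀ a b c : ZMod 3, b ^ 2 - 4 * a * c = 1 →
    (if c = 0 then f3 b else 0) + (if a - b + c = 0 then f3 (b - 2 * a) else 0) +
      (if a * 4 - b * 2 + c = 0 then f3 (b - 2 * a * 2) else 0) = if a = 0 then f3 b else 0 := by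
  decide

theorem k51 : ∀ a b c : ZMod 5, (b ^ 2 - 4 * a * c = 1 ∨ b ^ 2 - 4 * a * c = 4) →
    (if c = 0 then (1 : ℤ) else 0) + (if a - b + c = 0 then 1 else 0) +
      (if a * 4 - b * 2 + c = 0 then 1 else 0) + (if a * 9 - b * 3 + c = 0 then 1 else 0) +
      (if a * 16 - b * 4 + c = 0 then 1 else 0) = if a = 0 then 1 else 2 := by
  decide

theorem k51w : ∀ a b c : ZMod 5, (b ^ 2 - 4 * a * c = 1 ∨ b ^ 2 - 4 * a * c = 4) →
    (if c = 0 then f5 b else 0) + (if a - b + c = 0 then f5 (b - 2 * a) else 0) +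
      (if a * 4 - b * 2 + c = 0 then f5 (b - 2 * a * 2) else 0) +
      (if a * 9 - b * 3 + c = 0 then f5 (b - 2 * a * 3) else 0) +
      (if a * 16 - b * 4 + c = 0 then f5 (b - 2 * a * 4) else 0) = if a = 0 then f5 b else 0 := by
  decide

theorem R3_expand (ρ : ℤ → ℤ) (P : ℤ × ℤ × ℤ) : R ρ 3 P =
    (if (3 : ℤ) ∣ P.2.2 then ρ P.2.1 else 0) +
    (if (3 : ℤ) ∣ P.1 - P.2.1 + P.2.2 then ρ (P.2.1 - 2 * P.1) else 0) +
    (if (3 : ℤ) ∣ P.1 * 4 - P.2.1 * 2 + P.2.2 then ρ (P.2.1 - 2 * P.1 * 2) else 0) := by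
  unfold R
  rw [Finset.sum_range_succ, Finset.sum_range_succ, Finset.sum_range_succ, Finset.sum_range_zero]
  norm_num

theorem R5_expand (ρ : ℤ → ℤ) (P : ℤ × ℤ × ℤ) : R ρ 5 P =
    (if (5 : ℤ) ∣ P.2.2 then ρ P.2.1 else 0) +
    (if (5 : ℤ) ∣ P.1 - P.2.1 + P.2.2 then ρ (P.2.1 - 2 * P.1) else 0) +
    (if (5 : ℤ) ∣ P.1 * 4 - P.2.1 * 2 + P.2.2 then ρ (P.2.1 - 2 * P.1 * 2) else 0) +
    (if (5 : ℤ) ∣ P.1 * 9 - P.2.1 * 3 + P.2.2 then ρ (P.2.1 - 2 * P.1 * 3) else 0) +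
    (if (5 : ℤ) ∣ P.1 * 16 - P.2.1 * 4 + P.2.2 then ρ (P.2.1 - 2 * P.1 * 4) else 0) := by
  unfold R
  rw [Finset.sum_range_succ, Finset.sum_range_succ, Finset.sum_range_succ, Finset.sum_range_succ,
    Finset.sum_range_succ, Finset.sum_range_zero]
  norm_num

variable {D d : ℕ}

theorem disc3 {P : ℤ × ℤ × ℤ} (h : P.2.1 ^ 2 - 4 * P.1 * P.2.2 = D) (hD : D % 3 = 1) :
    ((P.2.1 : ZMod 3)) ^ 2 - 4 * (P.1 : ZMod 3) * (P.2.2 : ZMod 3) = 1 := by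
  have h1 := congrArg (Int.cast : ℤ → ZMod 3) h
  push_cast at h1
  rw [h1]
  have : ((D : ℕ) : ZMod 3) = ((1 : ℕ) : ZMod 3) := by
    rw [ZMod.natCast_eq_natCast_iff]
    exact hD
  rw [this]
  rfl

theorem disc5 {P : ℤ × ℤ × ℤ} (h : P.2.1 ^ 2 - 4 * P.1 * P.2.2 = D) (hD : jacobiSym D 5 = 1) :
    ((P.2.1 : ZMod 5)) ^ 2 - 4 * (P.1 : ZMod 5) * (P.2.2 : ZMod 5) = 1 ∨
    ((P.2.1 : ZMod 5)) ^ 2 - 4 * (P.1 : ZMod 5) * (P.2.2 : ZMod 5) = 4 := by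
  have h1 := congrArg (Int.cast : ℤ → ZMod 5) h
  push_cast at h1
  rw [h1]
  have h5 : D % 5 = 1 ∨ D % 5 = 4 := by
    rw [jacobiSym.mod_left] at hD
    have h2 : D % 5 = 0 ∨ D % 5 = 1 ∨ D % 5 = 2 ∨ D % 5 = 3 ∨ D % 5 = 4 := by omega
    have h3 : ∀ r : ℕ, D % 5 = r → (D : ℤ) % ((5 : ℕ) : ℤ) = (r : ℤ) := by
      intro r hr
      omega
    rcases h2 with h2 | h2 | h2 | h2 | h2
    · rw [h3 0 h2] at hD
      norm_num at hD
    · exact Or.inl h2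
    · rw [h3 2 h2] at hD
      norm_num at hD
    · rw [h3 3 h2] at hD
      norm_num at hD
    · exact Or.inr h2
  rcases h5 with h5 | h5
  · left
    have : ((D : ℕ) : ZMod 5) = ((1 : ℕ) : ZMod 5) := by
      rw [ZMod.natCast_eq_natCast_iff]
      exact h5
    rw [this]
    rfl
  · right
    have : ((D : ℕ) : ZMod 5) = ((4 : ℕ) : ZMod 5) := by
      rw [ZMod.natCast_eq_natCast_iff]
      exact h5
    rw [this]
    rfl

theorem R3_one {P : ℤ × ℤ × ℤ} (h : P.2.1 ^ 2 - 4 * P.1 * P.2.2 = D) (hD : D % 3 = 1) :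
    R one 3 P = if (3 : ℤ) ∣ P.1 then 1 else 2 := by
  rw [R3_expand]
  unfold one
  simp only [dz3]
  push_cast
  exact k31 _ _ _ (disc3 h hD)

theorem R5_one {P : ℤ × ℤ × ℤ} (h : P.2.1 ^ 2 - 4 * P.1 * P.2.2 = D) (hD : jacobiSym D 5 = 1) :
    R one 5 P = if (5 : ℤ) ∣ P.1 then 1 else 2 := by
  rw [R5_expand]
  unfold one
  simp only [dz5]
  push_cast
  exact k51 _ _ _ (disc5 h hD)

/-- the ramified case -/
theorem R3_ram {P : ℤ × ℤ × ℤ} (h : P.2.1 ^ 2 - 4 * P.1 * P.2.2 = D) (hF : Fd D) (hD : 3 ∣ D) :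
    R one 3 P = if (3 : ℤ) ∣ P.1 then 0 else 1 := by
  have hc := coef_odd hF Nat.prime_three (by norm_num) hD h
  have h9 := not_sq hF Nat.prime_three (by norm_num)
  rw [R3_expand]
  unfold one
  obtain ⟨A, B, C⟩ := P
  simp only at h hc ⊢
  have h1 := congrArg (Int.cast : ℤ → ZMod 3) h
  push_cast at h1
  have h0 : ((D : ℕ) : ZMod 3) = 0 := (ZMod.natCast_eq_zero_iff _ _).2 hD
  rw [h0] at h1
  push_cast at hc
  simp only [dz3] at hc ⊢
  push_cast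
  revert h1 hc
  generalize (A : ZMod 3) = a
  generalize (B : ZMod 3) = b
  generalize (C : ZMod 3) = c
  revert a b c
  decide

/-- the product of the two orientations -/
def w35 (b : ℤ) : ℤ := o3 b * o5 b

theorem R3_w {P : ℤ × ℤ × ℤ} (h : P.2.1 ^ 2 - 4 * P.1 * P.2.2 = D) (hD : D % 3 = 1)
    (h5 : (5 : ℤ) ∣ P.1) : R w35 3 P = if (3 : ℤ) ∣ P.1 then w35 P.2.1 else 0 := by
  have e : ∀ j : ℤ, o5 (P.2.1 - 2 * P.1 * j) = o5 P.2.1 := by
    intro j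
    rw [o5_eq, o5_eq]
    congr 1
    push_cast
    rw [(dz5 _).1 h5]
    ring
  have e1 := e 1
  rw [mul_one] at e1
  rw [R3_expand]
  unfold w35
  rw [e, e1]
  have k := k31w _ _ _ (disc3 h hD)
  simp only [dz3, o3_eq]
  push_cast
  have hm : ∀ (c : Prop) [Decidable c] (x y : ℤ), (if c then x * y else 0) =
      (if c then x else 0) * y := by
    intro c _ x y
    split_ifs
    · rfl
    · rw [zero_mul]
  rw [hm, hm, hm, ← add_mul, ← add_mul, k, hm]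

theorem R5_w {P : ℤ × ℤ × ℤ} (h : P.2.1 ^ 2 - 4 * P.1 * P.2.2 = D) (hD : jacobiSym D 5 = 1)
    (h3 : (3 : ℤ) ∣ P.1) : R w35 5 P = if (5 : ℤ) ∣ P.1 then w35 P.2.1 else 0 := by
  have e : ∀ j : ℤ, o3 (P.2.1 - 2 * P.1 * j) = o3 P.2.1 := by
    intro j
    rw [o3_eq, o3_eq]
    congr 1
    push_cast
    rw [(dz3 _).1 h3]
    ring
  have e1 := e 1
  rw [mul_one] at e1
  rw [R5_expand]
  unfold w35
  rw [e, e, e, e1]
  have k := k51w _ _ _ (disc5 h hD)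
  simp only [dz5, o5_eq]
  push_cast
  have hm : ∀ (c : Prop) [Decidable c] (x y : ℤ), (if c then y * x else 0) =
      y * (if c then x else 0) := by
    intro c _ x y
    split_ifs
    · rfl
    · rw [mul_zero]
  rw [hm, hm, hm, hm, hm, ← mul_add, ← mul_add, ← mul_add, ← mul_add, k, hm]

end

end Pool.Agent.N971.RQ
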