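import Pool.Agent.N971.RQ.Gc
import Pool.Agent.N975.RQ.Symb

/-!
# RQ: Hecke and Atkin-Lehner relations for the crossing numbers
-/

set_option autoImplicit false

namespace Pool.Agent.N971.RQ

open Finset
open Pool.Agent.N975.RQ (Gc Wt Par U X kw wt_kw X_kw par_kw U_fin X_inf X_smul X_neg X_mod X_add_mul)
open Pool.Agent.N975.Sym (ev act ev_act ev10)

noncomputable section

/-- the support of a weight -/
def Sup (D : ℤ) (k : ℤ × ℤ × ℤ → ℤ) : Prop := ∀ q, k q ≠ 0 → q.2.1 ^ 2 - 4 * q.1 * q.2.2 = D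

variable {D : ℤ} {k k' : ℤ × ℤ × ℤ → ℤ}

theorem sup_fin (hns : ¬ IsSquare D) (hk : Sup D k) {x m : ℤ} (hxm : x ≠ 0 ∨ m ≠ 0) :
    (Function.support (U k 1 0 x m)).Finite := by
  have H : Wt 1 D (kw 1 D (fun _ => 1) (fun _ => 1)) := wt_kw hns (fun _ _ _ => rfl) Gc.one
  refine (U_fin H hxm).subset ?_
  intro q hq
  rw [Function.mem_support] at hq ⊢
  unfold U at hq ⊢
  have h1 := left_ne_zero_of_mul hq
  have h2 := right_ne_zero_of_mul hq
  have h3 : kw 1 D (fun _ => 1) (fun _ => 1) q = 1 := by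
    unfold kw
    rw [if_pos ⟨hk q h1, one_dvd _⟩, mul_one]
  rw [h3, one_mul]
  exact h2

theorem X_add' (hns : ¬ IsSquare D) (hk : Sup D k) (hk' : Sup D k') {x m : ℤ}
    (hxm : x ≠ 0 ∨ m ≠ 0) : X (fun q => k q + k' q) x m = X k x m + X k' x m := by
  unfold X
  rw [← finsum_add_distrib (sup_fin hns hk hxm) (sup_fin hns hk' hxm)]
  refine finsum_congr fun q => ?_
  unfold U
  ring

theorem X_mul (c : ℤ) (x m : ℤ) : X (fun q => c * k q) x m = c * X k x m := by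
  unfold X
  have h : ∀ q, U (fun q => c * k q) 1 0 x m q = c * U k 1 0 x m q := fun q => by
    unfold U
    ring
  rw [finsum_congr h, ← mul_finsum]

theorem X_sum (hns : ¬ IsSquare D) {ι : Type} (s : Finset ι) (K : ι → ℤ × ℤ × ℤ → ℤ)
    (hk : ∀ i ∈ s, Sup D (K i)) {x m : ℤ} (hxm : x ≠ 0 ∨ m ≠ 0) :
    X (fun q => ∑ i ∈ s, K i q) x m = ∑ i ∈ s, X (K i) x m := by
  unfold X
  rw [← finsum_sum_comm s (fun q i => U (K i) 1 0 x m q) fun i hi => sup_fin hns (hk i hi) hxm]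
  refine finsum_congr fun q => ?_
  unfold U
  rw [Finset.sum_mul]

/-- summation over a set containing the support -/
theorem fs_mem {f : ℤ × ℤ × ℤ → ℤ} {S : Set (ℤ × ℤ × ℤ)} (h : ∀ q, f q ≠ 0 → q ∈ S) :
    ∑ᶠ q, f q = ∑ᶠ q ∈ S, f q := by
  rw [← finsum_mem_univ]
  refine finsum_mem_inter_support_eq' f _ _ fun q hq => ?_
  exact ⟨fun _ => h q hq, fun _ => Set.mem_univ _⟩

/-! ### the operator `U_p` -/

/-- the form `q ∘ (1, j; 0, p)^{-1}` -/
def dn (p j : ℤ) (P : ℤ × ℤ × ℤ) : ℤ × ℤ × ℤ :=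
  (p * P.1, P.2.1 - 2 * P.1 * j, ev P (-j) 1 / p)

def up (p j : ℤ) (q : ℤ × ℤ × ℤ) : ℤ × ℤ × ℤ :=
  (q.1 / p, q.2.1 + 2 * (q.1 / p) * j, ev q j p / p)

open Classical in
/-- the transported weight -/
def kU (k : ℤ × ℤ × ℤ → ℤ) (p j : ℤ) (P : ℤ × ℤ × ℤ) : ℤ :=
  if p ∣ ev P (-j) 1 then k (dn p j P) else 0

theorem up_dn {p : ℤ} (hp : p ≠ 0) (j : ℤ) {P : ℤ × ℤ × ℤ} (h : p ∣ ev P (-j) 1) :
    up p j (dn p j P) = P := by
  obtain ⟨A, B, C⟩ := P
  obtain ⟨t, ht⟩ := h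
  unfold ev at ht
  simp only at ht
  have e0 : ev (A, B, C) (-j) 1 = p * t := by unfold ev; simp only; exact ht
  unfold up dn
  rw [e0, Int.mul_ediv_cancel_left _ hp]
  simp only
  rw [Int.mul_ediv_cancel_left _ hp]
  refine Prod.ext rfl (Prod.ext ?_ ?_)
  · simp only
    ring
  · simp only
    have e1 : ev (p * A, B - 2 * A * j, t) j p = p * C := by
      unfold ev
      simp only
      linear_combination (-p) * ht
    rw [e1, Int.mul_ediv_cancel_left _ hp]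

theorem dn_up {p : ℤ} (hp : p ≠ 0) (j : ℤ) {q : ℤ × ℤ × ℤ} (h : p ∣ q.1) :
    dn p j (up p j q) = q ∧ p ∣ ev (up p j q) (-j) 1 := by
  obtain ⟨A, B, C⟩ := q
  obtain ⟨a, ha⟩ := h
  simp only at ha
  subst ha
  have e1 : ev (p * a, B, C) j p = p * (a * j ^ 2 + B * j + C * p) := by
    unfold ev
    ring
  have e2 : up p j (p * a, B, C) = (a, B + 2 * a * j, a * j ^ 2 + B * j + C * p) := by
    unfold up
    rw [e1]
    simp only
    rw [Int.mul_ediv_cancel_left _ hp, Int.mul_ediv_cancel_left _ hp]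
  have e3 : ev (a, B + 2 * a * j, a * j ^ 2 + B * j + C * p) (-j) 1 = p * C := by
    unfold ev
    ring
  rw [e2]
  refine ⟨?_, ?_⟩
  · unfold dn
    rw [e3, Int.mul_ediv_cancel_left _ hp]
    simp only
    refine Prod.ext rfl (Prod.ext ?_ rfl)
    simp only
    ring
  · rw [e3]
    exact dvd_mul_right _ _

theorem disc_dn {p : ℤ} (hp : p ≠ 0) (j : ℤ) {P : ℤ × ℤ × ℤ} (h : p ∣ ev P (-j) 1) :
    (dn p j P).2.1 ^ 2 - 4 * (dn p j P).1 * (dn p j P).2.2 = P.2.1 ^ 2 - 4 * P.1 * P.2.2 := by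
  obtain ⟨A, B, C⟩ := P
  obtain ⟨t, ht⟩ := h
  have e0 : dn p j (A, B, C) = (p * A, B - 2 * A * j, t) := by
    unfold dn
    rw [ht, Int.mul_ediv_cancel_left _ hp]
  rw [e0]
  unfold ev at ht
  simp only at ht ⊢
  linear_combination (4 * A) * ht

theorem X_U {p : ℤ} (hp : 0 < p) (j : ℤ) (hk : ∀ q, k q ≠ 0 → p ∣ q.1) :
    X k j p = X (kU k p j) 0 1 := by
  unfold X
  have h1 : ∀ q, U k 1 0 j p q ≠ 0 → q ∈ {q : ℤ × ℤ × ℤ | p ∣ q.1} := fun q hq =>
    hk q (left_ne_zero_of_mul hq)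
  have h2 : ∀ P, U (kU k p j) 1 0 0 1 P ≠ 0 → P ∈ {P : ℤ × ℤ × ℤ | p ∣ ev P (-j) 1} := by
    intro P hP
    have h3 := left_ne_zero_of_mul hP
    unfold kU at h3
    by_contra h4
    exact h3 (if_neg h4)
  rw [fs_mem h1, fs_mem h2]
  refine finsum_mem_eq_of_bijOn (up p j) ⟨?_, ?_, ?_⟩ ?_
  · intro q hq
    exact (dn_up hp.ne' j hq).2
  · intro q hq q' hq' h
    rw [← (dn_up hp.ne' j hq).1, ← (dn_up hp.ne' j hq').1, h]
  · intro P hP
    exact ⟨dn p j P, dvd_mul_right _ _, up_dn hp.ne' j hP⟩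
  · intro q hq
    have h5 := dn_up hp.ne' j hq
    have h6 : kU k p j (up p j q) = k q := by
      unfold kU
      rw [if_pos h5.2, h5.1]
    obtain ⟨a, ha⟩ := hq
    have e1 : ev (up p j q) 1 0 = a := by
      unfold up ev
      simp only
      rw [ha, Int.mul_ediv_cancel_left _ hp.ne']
      ring
    have e2 : p * ev (up p j q) 0 1 = ev q j p := by
      have h7 : p ∣ ev q j p := ⟨a * j ^ 2 + q.2.1 * j + q.2.2 * p, by
        unfold ev
        rw [ha]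
        ring⟩
      have h8 : ev (up p j q) 0 1 = ev q j p / p := by
        unfold up ev
        simp only
        ring
      rw [h8, Int.mul_ediv_cancel' h7]
    have e3 : ev q 1 0 = p * a := by rw [ev10, ha]
    unfold U
    rw [h6, e1, ← e2, e3, Int.sign_mul, Int.sign_mul, Int.sign_eq_one_of_pos hp, one_mul, one_mul]

/-! ### Atkin-Lehner -/

/-- the form `(q ∘ (Q a, b; Q M c, Q e)) / Q` -/
def al (Q M a b c e : ℤ) (q : ℤ × ℤ × ℤ) : ℤ × ℤ × ℤ :=
  (Q * M * (Q * (q.1 / (Q * M)) * a ^ 2 + q.2.1 * a * c + q.2.2 * M * c ^ 2),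
   2 * Q * M * (q.1 / (Q * M)) * a * b + q.2.1 * (Q * a * e + M * b * c) +
    2 * q.2.2 * Q * M * c * e,
   M * (q.1 / (Q * M)) * b ^ 2 + q.2.1 * b * e + q.2.2 * Q * e ^ 2)

theorem al_inv {Q M a b c e : ℤ} (hQM : Q * M ≠ 0) (h : Q * a * e - M * b * c = 1)
    {q : ℤ × ℤ × ℤ} (hq : Q * M ∣ q.1) : al Q M e (-b) (-c) a (al Q M a b c e q) = q := by
  obtain ⟨A, B, C⟩ := q
  obtain ⟨r, hr⟩ := hq
  simp only at hr
  subst hr
  unfold al
  simp only
  rw [Int.mul_ediv_cancel_left _ hQM, Int.mul_ediv_cancel_left _ hQM]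
  refine Prod.ext ?_ (Prod.ext ?_ ?_)
  · simp only
    linear_combination (Q * M * r * (Q * a * e - M * b * c + 1)) * h
  · simp only
    linear_combination (B * (Q * a * e - M * b * c + 1)) * h
  · simp only
    linear_combination (C * (Q * a * e - M * b * c + 1)) * h

theorem al_disc {Q M a b c e : ℤ} (hQM : Q * M ≠ 0) (h : Q * a * e - M * b * c = 1)
    {q : ℤ × ℤ × ℤ} (hq : Q * M ∣ q.1) : (al Q M a b c e q).2.1 ^ 2 -
      4 * (al Q M a b c e q).1 * (al Q M a b c e q).2.2 = q.2.1 ^ 2 - 4 * q.1 * q.2.2 := by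
  obtain ⟨A, B, C⟩ := q
  obtain ⟨r, hr⟩ := hq
  simp only at hr
  subst hr
  unfold al
  simp only
  rw [Int.mul_ediv_cancel_left _ hQM]
  linear_combination ((B ^ 2 - 4 * (Q * M * r) * C) * (Q * a * e - M * b * c + 1)) * h

theorem al_ev {Q M a b c e : ℤ} (hQM : Q * M ≠ 0)
    {q : ℤ × ℤ × ℤ} (hq : Q * M ∣ q.1) (x m : ℤ) :
    Q * ev (al Q M a b c e q) x m = ev q (Q * a * x + b * m) (Q * M * c * x + Q * e * m) := by
  obtain ⟨A, B, C⟩ := q
  obtain ⟨r, hr⟩ := hq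
  simp only at hr
  subst hr
  unfold al ev
  simp only
  rw [Int.mul_ediv_cancel_left _ hQM]
  ring

/-- **the Atkin-Lehner relation** -/
theorem X_al (hns : ¬ IsSquare D) (hk : Sup D k) {Q M a b c e : ℤ} (hQ : 0 < Q) (hM : 0 < M)
    (h : Q * a * e - M * b * c = 1) (hN : ∀ q, k q ≠ 0 → Q * M ∣ q.1) {s : ℤ} (hs : s * s = 1)
    (hw : ∀ q, q.2.1 ^ 2 - 4 * q.1 * q.2.2 = D → Q * M ∣ q.1 → k (al Q M a b c e q) = s * k q)
    {x m : ℤ} (hxm : x ≠ 0 ∨ m ≠ 0) :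
    X k (Q * a * x + b * m) (Q * M * c * x + Q * e * m) - X k (Q * a) (Q * M * c) =
      s * X k x m := by
  have hQM : Q * M ≠ 0 := by positivity
  have n1 : Q * a * x + b * m ≠ 0 ∨ Q * M * c * x + Q * e * m ≠ 0 := by
    by_contra hcon
    rw [not_or, not_not, not_not] at hcon
    obtain ⟨h1, h2⟩ := hcon
    have h3 : Q * x = 0 := by linear_combination (Q * e) * h1 - b * h2 - (Q * x) * h
    have h4 : Q * m = 0 := by
      linear_combination (Q * a) * h2 - (Q * M * c) * h1 - (Q * m) * h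
    rcases hxm with h5 | h5
    · exact h5 ((mul_eq_zero.1 h3).resolve_left hQ.ne')
    · exact h5 ((mul_eq_zero.1 h4).resolve_left hQ.ne')
  have n2 : Q * a ≠ 0 ∨ Q * M * c ≠ 0 := by
    by_contra hcon
    rw [not_or, not_not, not_not] at hcon
    obtain ⟨h1, h2⟩ := hcon
    have h3 : M * c = 0 := by
      have : Q * (M * c) = 0 := by linear_combination h2
      exact (mul_eq_zero.1 this).resolve_left hQ.ne'
    have : (0 : ℤ) = 1 := by linear_combination h - e * h1 + b * h3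
    norm_num at this
  set f : ℤ × ℤ × ℤ → ℤ := fun q => k q * (Int.sign (ev q (Q * a) (Q * M * c)) -
    Int.sign (ev q (Q * a * x + b * m) (Q * M * c * x + Q * e * m))) with hf
  have e1 : X k (Q * a * x + b * m) (Q * M * c * x + Q * e * m) - X k (Q * a) (Q * M * c) =
      ∑ᶠ q, f q := by
    unfold X
    rw [← finsum_sub_distrib (sup_fin hns hk n1) (sup_fin hns hk n2)]
    refine finsum_congr fun q => ?_
    unfold U
    rw [hf]
    ring
  have e2 : s * X k x m = ∑ᶠ q, s * U k 1 0 x m q := by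
    unfold X
    rw [mul_finsum]
  rw [e1, e2]
  set S : Set (ℤ × ℤ × ℤ) := {q | q.2.1 ^ 2 - 4 * q.1 * q.2.2 = D ∧ Q * M ∣ q.1} with hS
  have h1 : ∀ q, f q ≠ 0 → q ∈ S := fun q hq =>
    ⟨hk q (left_ne_zero_of_mul hq), hN q (left_ne_zero_of_mul hq)⟩
  have h2 : ∀ q, s * U k 1 0 x m q ≠ 0 → q ∈ S := fun q hq =>
    ⟨hk q (left_ne_zero_of_mul (right_ne_zero_of_mul hq)),
      hN q (left_ne_zero_of_mul (right_ne_zero_of_mul hq))⟩
  rw [fs_mem h1, fs_mem h2]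
  have h' : Q * e * a - M * -b * -c = 1 := by linear_combination h
  refine finsum_mem_eq_of_bijOn (al Q M a b c e) ⟨?_, ?_, ?_⟩ ?_
  · rintro q ⟨hq1, hq2⟩
    exact ⟨by rw [al_disc hQM h hq2, hq1], dvd_mul_right _ _⟩
  · rintro q ⟨hq1, hq2⟩ q' ⟨hq1', hq2'⟩ h3
    rw [← al_inv hQM h hq2, ← al_inv hQM h hq2', h3]
  · rintro q ⟨hq1, hq2⟩
    refine ⟨al Q M e (-b) (-c) a q, ⟨by rw [al_disc hQM h' hq2, hq1], dvd_mul_right _ _⟩, ?_⟩
    have := al_inv hQM h' hq2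
    simpa only [neg_neg] using this
  · rintro q ⟨hq1, hq2⟩
    have i1 := al_ev (a := a) (b := b) (c := c) (e := e) hQM hq2 x m
    have i2 := al_ev (a := a) (b := b) (c := c) (e := e) hQM hq2 1 0
    have i3 : Q * a * 1 + b * 0 = Q * a := by ring
    have i4 : Q * M * c * 1 + Q * e * 0 = Q * M * c := by ring
    rw [i3, i4] at i2
    rw [hf]
    simp only
    rw [← i1, ← i2, Int.sign_mul, Int.sign_mul, Int.sign_eq_one_of_pos hQ]
    unfold U
    rw [hw q hq1 hq2]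
    linear_combination (-(k q * (Int.sign (ev (al Q M a b c e q) 1 0) -
      Int.sign (ev (al Q M a b c e q) x m)))) * hs

end

end Pool.Agent.N971.RQ
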